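import Pool.Agent.Lib.MP_b07157_agNL.MainL

/-!
# Formal equivalence of polynomials at the origin: definitions
-/

noncomputable section

namespace MPb07157

open MvPolynomial

variable {n : ℕ}

/-- The germ of `f` at the origin is formally equivalent to the `m`-th power of `g`: in the ring
`ℂ[[x_1, …, x_n]]`, `f` is a unit times the `m`-th power of the image of `g` under a
`ℂ`-automorphism of this ring (a formal change of coordinates at the origin). -/
def FormEquivPow (f g : MvPolynomial (Fin n) ℂ) (m : ℕ) : Prop :=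
  ∃ (e : MvPowerSeries (Fin n) ℂ ≃ₐ[ℂ] MvPowerSeries (Fin n) ℂ) (u : (MvPowerSeries (Fin n) ℂ)ˣ),
    (f : MvPowerSeries (Fin n) ℂ) = u * e (g : MvPowerSeries (Fin n) ℂ) ^ m

/-- The polynomial `f(x + p)`. -/
def translate (p : Fin n → ℂ) (f : MvPolynomial (Fin n) ℂ) : MvPolynomial (Fin n) ℂ :=
  aeval (fun i => X i + C (p i)) f

end MPb07157
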