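import Pool.Agent.Lib.MP_b07157_agE.EG0
import Pool.Agent.Lib.MP_b07157_agE.EDefs

/-!
# Isolated singularities: the arcs at one point
-/

noncomputable section

namespace MPb07157

open MvPolynomial

variable {n : ℕ}

/-- Translation of the base point. -/
def shiftPoly (p : Fin n → ℂ) (N : ℕ) (q : Fin n × Fin (N + 1)) :
    MvPolynomial (Fin n × Fin (N + 1)) ℂ :=
  X q + (if q.2 = 0 then C (p q.1) else 0)

theorem polyMap_shiftPoly (p : Fin n → ℂ) (N : ℕ) (γ : Fin n × Fin (N + 1) → ℂ) :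
    polyMap (shiftPoly p N) γ = fun q => γ q + (if q.2 = 0 then p q.1 else 0) := by
  funext q
  unfold polyMap shiftPoly
  split_ifs <;> simp

theorem arc_shift (p : Fin n → ℂ) (N : ℕ) (γ : Fin n × Fin (N + 1) → ℂ) (i : Fin n) :
    arc (polyMap (shiftPoly p N) γ) i = arc γ i + PowerSeries.C (p i) := by
  ext k
  rw [map_add, coeff_arc, coeff_arc, polyMap_shiftPoly, PowerSeries.coeff_C]
  by_cases hk : k < N + 1
  · rw [dif_pos hk, dif_pos hk]
    by_cases h0 : k = 0
    · subst h0
      simp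
    · rw [if_neg h0]
      have h1 : (⟨k, hk⟩ : Fin (N + 1)) ≠ 0 := fun h => h0 (congrArg Fin.val h)
      show γ (i, ⟨k, hk⟩) + (if (⟨k, hk⟩ : Fin (N + 1)) = 0 then p i else 0) = _
      rw [if_neg h1]
  · rw [dif_neg hk, dif_neg hk, if_neg (by omega), add_zero]

theorem aeval_arc_shift (p : Fin n → ℂ) (N : ℕ) (γ : Fin n × Fin (N + 1) → ℂ)
    (f : MvPolynomial (Fin n) ℂ) :
    (aeval (arc (polyMap (shiftPoly p N) γ)) f : PowerSeries ℂ) =
      aeval (arc γ) (translate p f) := by
  unfold translate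
  rw [← AlgHom.comp_apply, comp_aeval]
  congr 2
  funext i
  rw [arc_shift, map_add, aeval_X]
  congr 1
  rw [← algebraMap_eq, AlgHom.commutes]
  rfl

theorem isConstr_point (p : Fin n → ℂ) : IsConstr ({p} : Set (Fin n → ℂ)) := by
  have h := isConstr_forall_mem (σ := Fin n) Finset.univ (fun (j : Fin n) u => u j = p j)
    (fun j _ => by
      have := isConstr_eq_zero (X j - C (p j) : MvPolynomial (Fin n) ℂ)
      simpa [sub_eq_zero] using this)
  convert h using 1
  ext x
  simp [funext_iff]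

theorem clsM_arcs_point (f : MvPolynomial (Fin n) ℂ) (p : Fin n → ℂ) (m : ℕ) :
    ↑((LU ^ (n * (m + 1)))⁻¹) * clsM (arcs f (m + 1) m ∩ AtW {p} m) =
      Zcoeff0 (translate p f) m := by
  unfold Zcoeff0 clsM
  congr 2
  symm
  have h0 : {γ : Fin n × Fin (m + 1) → ℂ | γ ∈ arcs (translate p f) (m + 1) m ∧ ∀ i, γ (i, 0) = 0} =
      arcs (translate p f) (m + 1) m ∩ AtW {0} m := by
    ext γ
    simp only [Set.mem_ofPred_eq, Set.mem_inter_iff, AtW, Set.mem_singleton_iff, funext_iff,
      Pi.zero_apply]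
  rw [h0]
  refine cls_bijOn ((isConstr_arcs _ _ _).inter (isConstr_AtW (isConstr_point 0) m))
    ((isConstr_arcs _ _ _).inter (isConstr_AtW (isConstr_point p) m)) (shiftPoly p m) ⟨?_, ?_, ?_⟩
  · rintro γ ⟨h1, h2⟩
    refine ⟨?_, ?_⟩
    · simp only [arcs, Set.mem_ofPred_eq] at h1 ⊢
      rw [aeval_arc_shift]
      exact h1
    · simp only [AtW, Set.mem_ofPred_eq, Set.mem_singleton_iff] at h2 ⊢
      funext i
      rw [polyMap_shiftPoly]
      have := congrFun h2 i
      simp only [Pi.zero_apply] at this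
      simp [this]
  · intro γ _ δ _ h
    rw [polyMap_shiftPoly, polyMap_shiftPoly] at h
    funext q
    have := congrFun h q
    exact add_right_cancel this
  · rintro δ ⟨h1, h2⟩
    have h3 : polyMap (shiftPoly p m) (fun q => δ q - (if q.2 = 0 then p q.1 else 0)) = δ := by
      rw [polyMap_shiftPoly]
      funext q
      simp
    refine ⟨fun q => δ q - (if q.2 = 0 then p q.1 else 0), ⟨?_, ?_⟩, h3⟩
    · simp only [arcs, Set.mem_ofPred_eq] at h1 ⊢
      rw [← aeval_arc_shift, h3]
      exact h1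
    · simp only [AtW, Set.mem_ofPred_eq, Set.mem_singleton_iff] at h2 ⊢
      funext i
      have := congrFun h2 i
      simp [this]

end MPb07157
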