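import Pool.Agent.Lib.MP_b07157_agE.EA

/-!
# Formal equivalence and local motivic zeta functions
-/

noncomputable section

namespace MPb07157

open MvPolynomial

variable {n : ℕ}

/-! ### Congruences -/

theorem exists_truncP (N : ℕ) (h : MvPowerSeries (Fin n) ℂ) :
    ∃ P : MvPolynomial (Fin n) ℂ, ∀ v : Fin n →₀ ℕ, ∑ i, v i ≤ N →
      coeff v P = MvPowerSeries.coeff v h := by
  refine ⟨MvPowerSeries.truncTotal (N + 1) h, fun v hv => ?_⟩
  exact MvPowerSeries.coeff_truncTotal _ (by rw [Finsupp.degree_eq_sum]; omega)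

theorem coeff_mul_congr {N : ℕ} {A A' B B' : MvPowerSeries (Fin n) ℂ}
    (hA : ∀ v : Fin n →₀ ℕ, ∑ i, v i ≤ N → MvPowerSeries.coeff v A = MvPowerSeries.coeff v A')
    (hB : ∀ v : Fin n →₀ ℕ, ∑ i, v i ≤ N → MvPowerSeries.coeff v B = MvPowerSeries.coeff v B') :
    ∀ v : Fin n →₀ ℕ, ∑ i, v i ≤ N →
      MvPowerSeries.coeff v (A * B) = MvPowerSeries.coeff v (A' * B') := by
  classical
  intro v hv
  rw [MvPowerSeries.coeff_mul, MvPowerSeries.coeff_mul]
  refine Finset.sum_congr rfl fun p hp => ?_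
  have h1 : p.1 + p.2 = v := Finset.HasAntidiagonal.mem_antidiagonal.1 hp
  have h2 : ∑ i, p.1 i + ∑ i, p.2 i = ∑ i, v i := by
    rw [← Finset.sum_add_distrib, ← h1]
    rfl
  rw [hA p.1 (by omega), hB p.2 (by omega)]

theorem coeff_pow_congr {N : ℕ} {A A' : MvPowerSeries (Fin n) ℂ}
    (hA : ∀ v : Fin n →₀ ℕ, ∑ i, v i ≤ N → MvPowerSeries.coeff v A = MvPowerSeries.coeff v A')
    (m : ℕ) : ∀ v : Fin n →₀ ℕ, ∑ i, v i ≤ N →
      MvPowerSeries.coeff v (A ^ m) = MvPowerSeries.coeff v (A' ^ m) := by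
  induction m with
  | zero => simp
  | succ m ih =>
    rw [pow_succ, pow_succ]
    exact coeff_mul_congr ih hA

theorem X_pow_dvd_prod {γ : Fin n → PowerSeries ℂ}
    (hγ : ∀ i, PowerSeries.constantCoeff (γ i) = 0) (v : Fin n →₀ ℕ) :
    (PowerSeries.X : PowerSeries ℂ) ^ (∑ i, v i) ∣ ∏ i, γ i ^ v i := by
  rw [← Finset.prod_pow_eq_pow_sum]
  exact Finset.prod_dvd_prod_of_dvd _ _ fun i _ =>
    pow_dvd_pow_of_dvd (PowerSeries.X_dvd_iff.2 (hγ i)) _

theorem aeval_congr_low {N : ℕ} {A B : MvPolynomial (Fin n) ℂ}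
    (h : ∀ v : Fin n →₀ ℕ, ∑ i, v i ≤ N → coeff v A = coeff v B) {γ : Fin n → PowerSeries ℂ}
    (hγ : ∀ i, PowerSeries.constantCoeff (γ i) = 0) :
    (PowerSeries.X : PowerSeries ℂ) ^ (N + 1) ∣ aeval γ A - aeval γ B := by
  rw [← map_sub, aeval_def, eval₂_eq']
  refine Finset.dvd_sum fun v hv => ?_
  have h1 : N + 1 ≤ ∑ i, v i := by
    by_contra hlt
    rw [mem_support_iff, coeff_sub, h v (by omega), sub_self] at hv
    exact hv rfl
  exact ((pow_dvd_pow _ h1).trans (X_pow_dvd_prod hγ v)).mul_left _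

theorem constantCoeff_aeval {γ : Fin n → PowerSeries ℂ}
    (hγ : ∀ i, PowerSeries.constantCoeff (γ i) = 0) (A : MvPolynomial (Fin n) ℂ) :
    PowerSeries.constantCoeff (aeval γ A : PowerSeries ℂ) = coeff 0 A := by
  have h1 : (PowerSeries.X : PowerSeries ℂ) ^ (0 + 1) ∣
      aeval γ A - aeval γ (C (coeff 0 A) : MvPolynomial (Fin n) ℂ) := by
    refine aeval_congr_low (fun v hv => ?_) hγ
    have h2 : v = 0 := by
      ext i
      have h3 : v i ≤ ∑ j, v j := Finset.single_le_sum (fun _ _ => Nat.zero_le _)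
        (Finset.mem_univ i)
      simp only [Finsupp.coe_zero, Pi.zero_apply]
      omega
    rw [h2, coeff_zero_C]
  rw [zero_add, pow_one, PowerSeries.X_dvd_iff, map_sub, sub_eq_zero] at h1
  rw [h1, aeval_C]
  simp

/-! ### The map on jets -/

/-- The map on jets of the polynomial map `q`. -/
def jetPoly (q : Fin n → MvPolynomial (Fin n) ℂ) (N : ℕ) (p : Fin n × Fin N) :
    MvPolynomial (Fin n × Fin N) ℂ :=
  (exists_coeff_poly (N := N) (q p.1) p.2).choose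

theorem polyMap_jetPoly (q : Fin n → MvPolynomial (Fin n) ℂ) {N : ℕ} (γ : Fin n × Fin N → ℂ)
    (p : Fin n × Fin N) : polyMap (jetPoly q N) γ p =
      PowerSeries.coeff (p.2 : ℕ) (aeval (arc γ) (q p.1) : PowerSeries ℂ) :=
  ((exists_coeff_poly (N := N) (q p.1) p.2).choose_spec γ).symm

theorem arc_jetPoly (q : Fin n → MvPolynomial (Fin n) ℂ) {N : ℕ} (γ : Fin n × Fin N → ℂ)
    (i : Fin n) : (PowerSeries.X : PowerSeries ℂ) ^ N ∣
      arc (polyMap (jetPoly q N) γ) i - aeval (arc γ) (q i) := by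
  rw [PowerSeries.X_pow_dvd_iff]
  intro k hk
  rw [map_sub, coeff_arc, dif_pos hk, polyMap_jetPoly, sub_self]

theorem constantCoeff_arc {M : ℕ} {γ : Fin n × Fin (M + 1) → ℂ} (hγ : ∀ i, γ (i, 0) = 0)
    (i : Fin n) : PowerSeries.constantCoeff (arc γ i) = 0 := by
  rw [← PowerSeries.coeff_zero_eq_constantCoeff_apply, coeff_arc, dif_pos (Nat.succ_pos M)]
  exact hγ i

/-- The polynomials `q j` agree with `e x_j` up to order `M`. -/
def IsTr (e : MvPowerSeries (Fin n) ℂ ≃ₐ[ℂ] MvPowerSeries (Fin n) ℂ) (M : ℕ)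
    (q : Fin n → MvPolynomial (Fin n) ℂ) : Prop :=
  ∀ j, ∀ v : Fin n →₀ ℕ, ∑ i, v i ≤ M →
    coeff v (q j) = MvPowerSeries.coeff v (e (MvPowerSeries.X j))

theorem exists_isTr (e : MvPowerSeries (Fin n) ℂ ≃ₐ[ℂ] MvPowerSeries (Fin n) ℂ) (M : ℕ) :
    ∃ q, IsTr e M q := by
  choose q hq using fun j => exists_truncP M (e (MvPowerSeries.X j))
  exact ⟨q, hq⟩

variable {e : MvPowerSeries (Fin n) ℂ ≃ₐ[ℂ] MvPowerSeries (Fin n) ℂ} {M : ℕ}
  {q q' : Fin n → MvPolynomial (Fin n) ℂ}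

theorem jet_zero (hq : IsTr e M q) {γ : Fin n × Fin (M + 1) → ℂ}
    (hγ : ∀ i, γ (i, 0) = 0) (i : Fin n) : polyMap (jetPoly q (M + 1)) γ (i, 0) = 0 := by
  rw [polyMap_jetPoly]
  have h1 : PowerSeries.coeff ((0 : Fin (M + 1)) : ℕ) (aeval (arc γ) (q i) : PowerSeries ℂ) =
      coeff 0 (q i) := by
    rw [← constantCoeff_aeval (constantCoeff_arc hγ), ← PowerSeries.coeff_zero_eq_constantCoeff_apply]
    rfl
  rw [h1, hq i 0 (by simp), MvPowerSeries.coeff_zero_eq_constantCoeff_apply, constantCoeff_equiv]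
  simp

theorem jet_jet (hq : IsTr e M q) (hq' : IsTr e.symm M q') {γ : Fin n × Fin (M + 1) → ℂ}
    (hγ : ∀ i, γ (i, 0) = 0) :
    polyMap (jetPoly q' (M + 1)) (polyMap (jetPoly q (M + 1)) γ) = γ := by
  funext p
  rw [polyMap_jetPoly]
  have h1 := aeval_congr_X_pow (M + 1) (q' p.1) (arc (polyMap (jetPoly q (M + 1)) γ))
    (fun j => (aeval (arc γ) (q j) : PowerSeries ℂ)) (arc_jetPoly q γ)
  rw [PowerSeries.X_pow_dvd_iff] at h1
  have h2 := h1 p.2 p.2.2
  rw [map_sub, sub_eq_zero] at h2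
  rw [h2, ← aeval_arc_equiv e M q hq (q' p.1) (X p.1) (fun v hv => ?_) (arc γ)
    (constantCoeff_arc hγ) p.2 (Nat.lt_succ_iff.1 p.2.2), aeval_X, coeff_arc, dif_pos p.2.2]
  have h3 := coeff_equiv_eq_zero e M (h := (q' p.1 : MvPowerSeries (Fin n) ℂ) -
    e.symm (MvPowerSeries.X p.1)) (fun v hv => by
      rw [map_sub, coeff_coe, hq' p.1 v hv, sub_self]) v hv
  rw [map_sub, map_sub, AlgEquiv.apply_symm_apply, sub_eq_zero] at h3
  rw [h3, ← coeff_coe, coe_X]

/-! ### Orders -/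

theorem exists_unit_congr {f g : MvPolynomial (Fin n) ℂ} {m : ℕ}
    {u : (MvPowerSeries (Fin n) ℂ)ˣ}
    (hf : (f : MvPowerSeries (Fin n) ℂ) = u * e (g : MvPowerSeries (Fin n) ℂ) ^ m)
    (hq : IsTr e M q) {γ : Fin n × Fin (M + 1) → ℂ} (hγ : ∀ i, γ (i, 0) = 0) :
    ∃ U : PowerSeries ℂ, PowerSeries.constantCoeff U ≠ 0 ∧
      (PowerSeries.X : PowerSeries ℂ) ^ (M + 1) ∣ aeval (arc γ) f -
        U * (aeval (arc (polyMap (jetPoly q (M + 1)) γ)) g : PowerSeries ℂ) ^ m := by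
  obtain ⟨P, hP⟩ := exists_truncP M (e (g : MvPowerSeries (Fin n) ℂ))
  obtain ⟨U, hU⟩ := exists_truncP M (u : MvPowerSeries (Fin n) ℂ)
  have hγ' := constantCoeff_arc hγ
  refine ⟨aeval (arc γ) U, ?_, ?_⟩
  · rw [constantCoeff_aeval hγ', hU 0 (by simp), MvPowerSeries.coeff_zero_eq_constantCoeff_apply]
    exact ((Units.isUnit u).map (MvPowerSeries.constantCoeff (σ := Fin n) (R := ℂ))).ne_zero
  · have h1 : (PowerSeries.X : PowerSeries ℂ) ^ (M + 1) ∣
        aeval (arc γ) f - aeval (arc γ) (U * P ^ m) := by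
      refine aeval_congr_low (fun v hv => ?_) hγ'
      rw [← coeff_coe f v, hf, ← coeff_coe (U * P ^ m) v, coe_mul, coe_pow]
      exact coeff_mul_congr (fun v hv => by rw [coeff_coe, hU v hv])
        (coeff_pow_congr (fun v hv => by rw [coeff_coe, hP v hv]) m) v hv
    have h2 : (PowerSeries.X : PowerSeries ℂ) ^ (M + 1) ∣ aeval (arc γ) P -
        (aeval (fun j => (aeval (arc γ) (q j) : PowerSeries ℂ)) g : PowerSeries ℂ) := by
      rw [PowerSeries.X_pow_dvd_iff]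
      intro k hk
      rw [map_sub, aeval_arc_equiv e M q hq g P hP (arc γ) hγ' k (Nat.lt_succ_iff.1 hk), sub_self]
    have h3 := aeval_congr_X_pow (M + 1) g (arc (polyMap (jetPoly q (M + 1)) γ))
      (fun j => (aeval (arc γ) (q j) : PowerSeries ℂ)) (arc_jetPoly q γ)
    have h4 : (PowerSeries.X : PowerSeries ℂ) ^ (M + 1) ∣ aeval (arc γ) P -
        aeval (arc (polyMap (jetPoly q (M + 1)) γ)) g := by
      have h5 := dvd_sub h2 h3
      rwa [sub_sub_sub_cancel_right] at h5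
    have h6 : (PowerSeries.X : PowerSeries ℂ) ^ (M + 1) ∣ (aeval (arc γ) P : PowerSeries ℂ) ^ m -
        (aeval (arc (polyMap (jetPoly q (M + 1)) γ)) g : PowerSeries ℂ) ^ m :=
      h4.trans (sub_dvd_pow_sub_pow _ _ m)
    have h7 := dvd_add h1 (h6.mul_left (aeval (arc γ) U))
    rw [map_mul, map_pow] at h7
    convert h7 using 1
    ring

theorem order_jet {f g : MvPolynomial (Fin n) ℂ} {m : ℕ} {u : (MvPowerSeries (Fin n) ℂ)ˣ}
    (hf : (f : MvPowerSeries (Fin n) ℂ) = u * e (g : MvPowerSeries (Fin n) ℂ) ^ m)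
    (hq : IsTr e M q) {γ : Fin n × Fin (M + 1) → ℂ} (hγ : ∀ i, γ (i, 0) = 0) {k : ℕ}
    (hk : k ≤ M) :
    (aeval (arc γ) f : PowerSeries ℂ).order = k ↔
      m • (aeval (arc (polyMap (jetPoly q (M + 1)) γ)) g : PowerSeries ℂ).order = k := by
  obtain ⟨U, hU, h⟩ := exists_unit_congr hf hq hγ
  rw [order_congr (Nat.lt_succ_iff.2 hk) h, PowerSeries.order_mul, PowerSeries.order_pow]
  have h1 : U.order = 0 := by
    by_contra h1
    exact hU (PowerSeries.order_ne_zero_iff_constCoeff_eq_zero.1 h1)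
  rw [h1, zero_add]

theorem smul_eq_iff {m k : ℕ} (hm : 0 < m) (x : ℕ∞) : m • x = ((m * k : ℕ) : ℕ∞) ↔ x = k := by
  induction x using ENat.recTopCoe with
  | top =>
    constructor
    · intro h
      exfalso
      rw [nsmul_eq_mul, ENat.mul_top (by exact_mod_cast hm.ne')] at h
      exact ENat.top_ne_natCast _ h
    · intro h
      exact absurd h (ENat.top_ne_natCast _)
  | coe x =>
    rw [nsmul_eq_mul]
    constructor
    · intro h
      have h2 : m * x = m * k := by exact_mod_cast h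
      exact_mod_cast Nat.eq_of_mul_eq_mul_left hm h2
    · intro h
      have h2 : x = k := by exact_mod_cast h
      rw [h2]
      push_cast
      rfl

theorem dvd_of_smul_eq {m k : ℕ} {x : ℕ∞} (h : m • x = (k : ℕ∞)) (hm : 0 < m) : m ∣ k := by
  induction x using ENat.recTopCoe with
  | top =>
    exfalso
    rw [nsmul_eq_mul, ENat.mul_top (by exact_mod_cast hm.ne')] at h
    exact ENat.top_ne_natCast _ h
  | coe x =>
    rw [nsmul_eq_mul] at h
    exact ⟨x, by exact_mod_cast h.symm⟩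

/-! ### Coefficients of the zeta functions -/

theorem Zcoeff0_eq_muE (f : MvPolynomial (Fin n) ℂ) (k : ℕ) :
    Zcoeff0 f k = muE f 1 (k + 1) k := by
  have h := congrArg (PowerSeries.coeff k) (Zmot0_eq f)
  rwa [Zmot0, ZE, PowerSeries.coeff_mk, PowerSeries.coeff_mk] at h

theorem mem_Start_one {γ : Fin n × Fin (M + 1) → ℂ} :
    γ ∈ Start n 1 (M + 1) ↔ ∀ i, γ (i, 0) = 0 := by
  constructor
  · intro h i
    exact h i 0 (by simp)
  · intro h i k hk
    have h1 : k = 0 := by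
      ext
      simp only [Nat.lt_one_iff] at hk
      simp [hk]
    rw [h1]
    exact h i

/-- `Z_{f,0}(T) = Z_{g,0}(T^m)`, coefficientwise. -/
theorem Zcoeff0_of_formEquivPow {f g : MvPolynomial (Fin n) ℂ} {m : ℕ} (hm : 0 < m)
    (h : FormEquivPow f g m) (k : ℕ) :
    Zcoeff0 f (m * k) = Zcoeff0 g k := by
  obtain ⟨e, u, hf⟩ := h
  obtain ⟨q, hq⟩ := exists_isTr e (m * k)
  obtain ⟨q', hq'⟩ := exists_isTr e.symm (m * k)
  have hk : k ≤ m * k := Nat.le_mul_of_pos_left k hm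
  rw [Zcoeff0_eq_muE, Zcoeff0_eq_muE, ← muE_eq g (ε := 1) (Nat.lt_succ_iff.2 hk) le_rfl]
  unfold muE clsM
  congr 2
  refine cls_bijOn ((isConstr_arcs _ _ _).inter (isConstr_Start _ _ _))
    ((isConstr_arcs _ _ _).inter (isConstr_Start _ _ _)) (jetPoly q (m * k + 1)) ⟨?_, ?_, ?_⟩
  · rintro γ ⟨h1, h2⟩
    rw [mem_Start_one] at h2
    refine ⟨?_, mem_Start_one.2 (jet_zero hq h2)⟩
    exact (smul_eq_iff hm _).1 ((order_jet hf hq h2 le_rfl).1 h1)
  · rintro γ ⟨-, h2⟩ γ' ⟨-, h2'⟩ heq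
    rw [mem_Start_one] at h2 h2'
    rw [← jet_jet hq hq' h2, heq, jet_jet hq hq' h2']
  · rintro γ ⟨h1, h2⟩
    rw [mem_Start_one] at h2
    have h3 : polyMap (jetPoly q (m * k + 1)) (polyMap (jetPoly q' (m * k + 1)) γ) = γ :=
      jet_jet (e := e.symm) hq' hq h2
    have h4 := jet_zero hq' h2
    refine ⟨polyMap (jetPoly q' (m * k + 1)) γ, ⟨?_, mem_Start_one.2 h4⟩, h3⟩
    refine (order_jet hf hq h4 le_rfl).2 ?_
    rw [h3]
    exact (smul_eq_iff hm _).2 h1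

theorem Zcoeff0_of_formEquivPow_ndvd {f g : MvPolynomial (Fin n) ℂ} {m : ℕ} (hm : 0 < m)
    (h : FormEquivPow f g m) {k : ℕ} (hk : ¬ m ∣ k) :
    Zcoeff0 f k = 0 := by
  obtain ⟨e, u, hf⟩ := h
  obtain ⟨q, hq⟩ := exists_isTr e k
  rw [Zcoeff0_eq_muE]
  unfold muE clsM
  have h1 : arcs f (k + 1) k ∩ Start n 1 (k + 1) = ∅ := by
    rw [Set.eq_empty_iff_forall_notMem]
    rintro γ ⟨h1, h2⟩
    rw [mem_Start_one] at h2
    exact hk (dvd_of_smul_eq ((order_jet hf hq h2 le_rfl).1 h1) hm)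
  rw [h1, cls_empty, map_zero, mul_zero]

/-! ### Poles -/

theorem Zmot0_of_formEquivPow {f g : MvPolynomial (Fin n) ℂ} {m : ℕ} (hm : 0 < m)
    (h : FormEquivPow f g m) : Zmot0 f = PowerSeries.expand m hm.ne' (Zmot0 g) := by
  ext k
  unfold Zmot0
  rw [PowerSeries.coeff_mk]
  by_cases hk : m ∣ k
  · obtain ⟨l, rfl⟩ := hk
    rw [PowerSeries.coeff_expand_mul, PowerSeries.coeff_mk, Zcoeff0_of_formEquivPow hm h]
  · rw [PowerSeries.coeff_expand_of_not_dvd _ _ _ hk, Zcoeff0_of_formEquivPow_ndvd hm h hk]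

theorem expand_mem_regularAt {m : ℕ} (hm : 0 < m) {s₀ : ℚ} {Z : PowerSeries Mot}
    (hZ : Z ∈ regularAt (m * s₀)) : PowerSeries.expand m hm.ne' Z ∈ regularAt s₀ := by
  have hle : regularAt (m * s₀) ≤ (regularAt s₀).comap (PowerSeries.expand m hm.ne') := by
    refine Algebra.adjoin_le ?_
    rintro Z (hZ | ⟨a, b, hb, hab, hZ⟩)
    · rw [Set.mem_singleton_iff.1 hZ, SetLike.mem_coe, Subalgebra.mem_comap,
        PowerSeries.expand_X]
      exact pow_mem (X_mem_regularAt s₀) m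
    · rw [SetLike.mem_coe, Subalgebra.mem_comap]
      refine Algebra.subset_adjoin (Or.inr ⟨a, m * b, Nat.mul_pos hm hb, ?_, ?_⟩)
      · intro h
        apply hab
        have hm' : (m : ℚ) ≠ 0 := by exact_mod_cast hm.ne'
        have hb' : (b : ℚ) ≠ 0 := by exact_mod_cast hb.ne'
        push_cast at h
        field_simp at h ⊢
        linarith
      · have h := congrArg (PowerSeries.expand m hm.ne') hZ
        rw [map_mul, map_sub, map_one, map_mul, map_pow, PowerSeries.expand_C,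
          PowerSeries.expand_X, ← pow_mul] at h
        exact h
  exact hle hZ

theorem isPole_of_formEquivPow {f g : MvPolynomial (Fin n) ℂ} {m : ℕ} (hm : 0 < m)
    (h : FormEquivPow f g m) {s₀ : ℚ} (hp : IsPole (Zmot0 f) s₀) :
    IsPole (Zmot0 g) (m * s₀) := by
  intro h1
  apply hp
  rw [Zmot0_of_formEquivPow hm h]
  exact expand_mem_regularAt hm h1

end MPb07157
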