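import Pool.Agent.Lib.MP_b07157_agE.ET
import Pool.Agent.Lib.MP_b07157_agE.EG1

/-!
# Isolated singularities: from global to local
-/

noncomputable section

namespace MPb07157

open MvPolynomial

variable {n : ℕ}

/-- The points of `f = 0` at which `∂_j f` is the first non-vanishing derivative. -/
def WJ (f : MvPolynomial (Fin n) ℂ) (j : Fin n) : Set (Fin n → ℂ) :=
  {p | eval p f = 0 ∧ ((∀ i ∈ Finset.univ.filter (· < j), eval p (pderiv i f) = 0) ∧
    eval p (pderiv j f) ≠ 0)}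

theorem isConstr_WJ (f : MvPolynomial (Fin n) ℂ) (j : Fin n) : IsConstr (WJ f j) :=
  isConstr_setOf_and (isConstr_eq_zero f) (isConstr_setOf_and
    (isConstr_forall_mem _ _ fun _ _ => isConstr_eq_zero _) (isConstr_ne_zero _))

theorem disjoint_WJ (f : MvPolynomial (Fin n) ℂ) {i j : Fin n} (hij : i ≠ j) :
    Disjoint (WJ f i) (WJ f j) := by
  rw [Set.disjoint_left]
  rintro u ⟨-, h1, h2⟩ ⟨-, h3, h4⟩
  rcases lt_or_gt_of_ne hij with h5 | h5
  · exact h2 (h3 i (Finset.mem_filter.2 ⟨Finset.mem_univ i, h5⟩))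
  · exact h4 (h1 j (Finset.mem_filter.2 ⟨Finset.mem_univ j, h5⟩))

theorem exists_mem_WJ {f : MvPolynomial (Fin n) ℂ} {p : Fin n → ℂ} (h0 : eval p f = 0)
    (h : ¬ ∀ j, eval p (pderiv j f) = 0) : ∃ j, p ∈ WJ f j := by
  push Not at h
  obtain ⟨j, hj⟩ := h
  have hne : (Finset.univ.filter fun j => eval p (pderiv j f) ≠ 0).Nonempty :=
    ⟨j, by simpa using hj⟩
  refine ⟨Finset.min' _ hne, h0, fun i hi => ?_, ?_⟩
  · by_contra hcon
    have hmem : i ∈ Finset.univ.filter fun j => eval p (pderiv j f) ≠ 0 :=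
      Finset.mem_filter.2 ⟨Finset.mem_univ i, hcon⟩
    have h1 := Finset.min'_le _ i hmem
    rw [Finset.mem_filter] at hi
    exact absurd hi.2 (not_lt.2 h1)
  · exact (Finset.mem_filter.1 (Finset.min'_mem _ hne)).2

/-- The set of arcs with `ord f = m + 1`, split according to the base point. -/
theorem arcs_succ_eq {f : MvPolynomial (Fin n) ℂ} (hf : f ≠ 0) (Z : Finset (Fin n → ℂ))
    (hZ : ∀ p, p ∈ Z ↔ eval p f = 0 ∧ ∀ j, eval p (pderiv j f) = 0) (m : ℕ) :
    arcs f (m + 1 + 1) (m + 1) =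
      (⋃ j ∈ (Finset.univ : Finset (Fin n)), (arcs f (m + 1 + 1) (m + 1) ∩ AtW (WJ f j) (m + 1))) ∪
      ⋃ p ∈ Z, (arcs f (m + 1 + 1) (m + 1) ∩ AtW {p} (m + 1)) := by
  ext γ
  simp only [Set.mem_union, Set.mem_iUnion, Set.mem_inter_iff, exists_prop, Finset.mem_univ,
    true_and]
  constructor
  · intro h
    have h0 : eval (fun i => γ (i, 0)) f = 0 := by
      rw [← coeff_zero_Fv hf γ]
      exact ((mem_arcs_iff f _ _ γ).1 h).2 0 (Nat.succ_pos m)
    by_cases hs : ∀ j, eval (fun i => γ (i, 0)) (pderiv j f) = 0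
    · exact Or.inr ⟨fun i => γ (i, 0), (hZ _).2 ⟨h0, hs⟩, h, rfl⟩
    · obtain ⟨j, hj⟩ := exists_mem_WJ h0 hs
      exact Or.inl ⟨j, h, hj⟩
  · rintro (⟨j, h, -⟩ | ⟨p, -, h, -⟩)
    · exact h
    · exact h

theorem Zcoeff_succ_eq {f : MvPolynomial (Fin n) ℂ} (hf : f ≠ 0) (Z : Finset (Fin n → ℂ))
    (hZ : ∀ p, p ∈ Z ↔ eval p f = 0 ∧ ∀ j, eval p (pderiv j f) = 0) (m : ℕ) :
    Zcoeff f (m + 1) =
      ∑ j, (↑((LU ^ n)⁻¹) * clsM (WJ f j) * ((LU : Mot) - 1)) * (↑(LU⁻¹) : Mot) ^ (m + 1) +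
      ∑ p ∈ Z, Zcoeff0 (translate p f) (m + 1) := by
  have hc1 : ∀ j ∈ (Finset.univ : Finset (Fin n)),
      IsConstr (arcs f (m + 1 + 1) (m + 1) ∩ AtW (WJ f j) (m + 1)) := fun j _ =>
    (isConstr_arcs _ _ _).inter (isConstr_AtW (isConstr_WJ f j) _)
  have hc2 : ∀ p ∈ Z, IsConstr (arcs f (m + 1 + 1) (m + 1) ∩ AtW {p} (m + 1)) := fun p _ =>
    (isConstr_arcs _ _ _).inter (isConstr_AtW (isConstr_point p) _)
  have h1 : clsM (arcs f (m + 1 + 1) (m + 1)) =
      ∑ j, clsM (arcs f (m + 1 + 1) (m + 1) ∩ AtW (WJ f j) (m + 1)) +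
      ∑ p ∈ Z, clsM (arcs f (m + 1 + 1) (m + 1) ∩ AtW {p} (m + 1)) := by
    unfold clsM
    conv_lhs => rw [arcs_succ_eq hf Z hZ m]
    rw [cls_union (isConstr_biUnion _ _ hc1) (isConstr_biUnion _ _ hc2), map_add,
      cls_biUnion _ _ hc1, cls_biUnion _ _ hc2, map_sum, map_sum]
    · intro p _ q _ hpq
      rw [Set.disjoint_left]
      rintro γ ⟨-, h2⟩ ⟨-, h3⟩
      exact hpq ((Set.mem_singleton_iff.1 h2).symm.trans (Set.mem_singleton_iff.1 h3))
    · intro i _ j _ hij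
      rw [Set.disjoint_left]
      rintro γ ⟨-, h2⟩ ⟨-, h3⟩
      exact Set.disjoint_left.1 (disjoint_WJ f hij) h2 h3
    · rw [Set.disjoint_left]
      intro γ h2 h3
      simp only [Set.mem_iUnion, exists_prop] at h2 h3
      obtain ⟨j, -, -, h4⟩ := h2
      obtain ⟨p, hp, -, h5⟩ := h3
      have h6 : (fun i => γ (i, 0)) = p := h5
      have h7 : (fun i => γ (i, 0)) ∈ WJ f j := h4
      rw [h6] at h7
      exact h7.2.2 (((hZ p).1 hp).2 j)
  unfold Zcoeff
  rw [h1, mul_add, Finset.mul_sum, Finset.mul_sum]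
  congr 1
  · refine Finset.sum_congr rfl fun j _ => ?_
    exact clsM_arcs_AtW hf (isConstr_WJ f j) (fun p hp => hp.1) j (fun p hp => hp.2.2) m
  · exact Finset.sum_congr rfl fun p _ => clsM_arcs_point f p (m + 1)

/-- The geometric series. -/
def geoS : PowerSeries Mot := PowerSeries.mk fun k => (↑(LU⁻¹) : Mot) ^ k

theorem geoS_mul : geoS * (1 - PowerSeries.C (↑(LU⁻¹) : Mot) * PowerSeries.X) = 1 := by
  ext k
  rw [mul_sub, mul_one, map_sub, ← mul_assoc, PowerSeries.coeff_one]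
  cases k with
  | zero => simp [geoS]
  | succ k =>
    rw [PowerSeries.coeff_succ_mul_X, PowerSeries.coeff_mul_C, geoS, PowerSeries.coeff_mk,
      PowerSeries.coeff_mk, pow_succ, sub_self, if_neg (Nat.succ_ne_zero k)]

theorem geoS_mem {s₀ : ℚ} (h1 : s₀ ≠ -1) : geoS ∈ regularAt s₀ := by
  refine Algebra.subset_adjoin (Or.inr ⟨1, 1, one_pos, ?_, ?_⟩)
  · intro h
    apply h1
    push_cast at h
    linarith
  · rw [pow_one, zpow_neg, zpow_one]
    exact geoS_mul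

/-- The part of the motivic zeta function over the points of `f = 0` that are not singular is
regular at `s₀ ≠ -1`; the rest is the sum of the local zeta functions at the singular points. -/
theorem exists_pole_of_isolated {f : MvPolynomial (Fin n) ℂ} (hf : f ≠ 0)
    (hfin : {p : Fin n → ℂ | eval p f = 0 ∧ ∀ j, eval p (pderiv j f) = 0}.Finite)
    {s₀ : ℚ} (h1 : s₀ ≠ -1) (hp : IsPole (Zmot f) s₀) :
    ∃ p : Fin n → ℂ, (eval p f = 0 ∧ ∀ j, eval p (pderiv j f) = 0) ∧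
      IsPole (Zmot0 (translate p f)) s₀ := by
  by_contra hcon
  push Not at hcon
  apply hp
  set Z := hfin.toFinset with hZdef
  have hZ : ∀ p, p ∈ Z ↔ eval p f = 0 ∧ ∀ j, eval p (pderiv j f) = 0 := fun p => by
    rw [hZdef, Set.Finite.mem_toFinset]
    rfl
  have hreg : ∀ p ∈ Z, Zmot0 (translate p f) ∈ regularAt s₀ := by
    intro p hpZ
    have := hcon p ((hZ p).1 hpZ)
    unfold IsPole at this
    exact not_not.1 this
  set c : Mot := ∑ j, (↑((LU ^ n)⁻¹) * clsM (WJ f j) * ((LU : Mot) - 1)) with hc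
  set c0 : Mot := Zcoeff f 0 - ∑ p ∈ Z, Zcoeff0 (translate p f) 0 - c with hc0
  have key : Zmot f = PowerSeries.C c0 + PowerSeries.C c * geoS +
      ∑ p ∈ Z, Zmot0 (translate p f) := by
    ext k
    rw [map_add, map_add, map_sum (PowerSeries.coeff k), PowerSeries.coeff_C_mul,
      PowerSeries.coeff_C]
    unfold Zmot Zmot0 geoS
    simp only [PowerSeries.coeff_mk]
    cases k with
    | zero =>
      rw [if_pos rfl, pow_zero, mul_one, hc0]
      ring
    | succ k =>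
      rw [if_neg (Nat.succ_ne_zero k), zero_add, Zcoeff_succ_eq hf Z hZ k, ← Finset.sum_mul]
  rw [key]
  refine add_mem (add_mem (C_mem_regularAt s₀ c0) (mul_mem (C_mem_regularAt s₀ c) (geoS_mem h1)))
    (sum_mem hreg)

end MPb07157
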