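import Pool.Agent.Lib.MP_b07157_agE.EB
import Pool.Agent.Lib.MP_b07157_agE.EZ
import Pool.Agent.Lib.MP_b07157_agE.EG

/-!
# The strong monodromy conjecture for germs that are formally equivalent to (powers of) Newton
non-degenerate polynomials, and for hypersurfaces with isolated singularities of this kind
-/

noncomputable section

namespace MPb07157

open MvPolynomial

variable {n : ℕ}

/-- All formal Bernstein–Sato polynomials of `f` vanish at the poles of `Z_{f,0}`. -/
theorem eval_eq_zero_of_form {f : MvPolynomial (Fin n) ℂ} (hf : f ≠ 0) (h0 : coeff 0 f = 0)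
    (hnd : ∀ w : Fin n → ℕ, (∀ j, 0 < w j) → IsNondeg (initialPart f w))
    (s₀ : ℚ) (hp : IsPole (Zmot0 f) s₀) (b : Polynomial ℂ)
    (hb : InDnForm f 1 (b.map (MvPowerSeries.C (σ := Fin n) (R := ℂ)))) :
    b.eval (s₀ : ℂ) = 0 := by
  have h0' : (0 : Fin n →₀ ℕ) ∉ f.support := by rwa [notMem_support_iff]
  have hnd' : ∀ a : Fin n → ℕ, (∀ i, 0 < a i) → NondegAt f (face f a (nuf f a)) :=
    fun w hw => nondegAt_of_initialPart hf (hnd w hw)
  by_cases hs : s₀ = -1
  · subst hs
    exact neg_one_root hf h0' b hb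
  obtain ⟨k, hk, ω, Nω, ρ, γ, hg⟩ := MPb07157P.LocL.exists_goodL_of_pole hf hnd' hs hp
  obtain ⟨w, N, ω', Nω', P, ρ', γ', hN, hmin, hNω, hω, hminω, hP, hgood, hsum⟩ :=
    MPb07157Z.exists_faceL hk hg
  exact MPb07157Z.root_of_goodPL hf h0' (MPb07157Z.ndcpt_of_nondegAt hf hnd') hN hmin hNω hω
    hminω hP hgood hsum b hb

theorem coeff_zero_eq_zero_of_formEquivPow {f g : MvPolynomial (Fin n) ℂ} {m : ℕ} (hm : 0 < m)
    (h : FormEquivPow f g m) (h0 : coeff 0 f = 0) : coeff 0 g = 0 := by
  obtain ⟨e, u, h⟩ := h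
  have h1 : MvPowerSeries.constantCoeff (f : MvPowerSeries (Fin n) ℂ) = 0 := by
    rw [← MvPowerSeries.coeff_zero_eq_constantCoeff_apply, MvPolynomial.coeff_coe, h0]
  rw [h, map_mul, map_pow, constantCoeff_equiv] at h1
  have h2 : MvPowerSeries.constantCoeff (u : MvPowerSeries (Fin n) ℂ) ≠ 0 := by
    have := (Units.isUnit u).map (MvPowerSeries.constantCoeff (σ := Fin n) (R := ℂ))
    exact this.ne_zero
  have h3 := (mul_eq_zero.1 h1).resolve_left h2
  have h4 := pow_eq_zero_iff (Nat.pos_iff_ne_zero.1 hm) |>.1 h3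
  rw [← MvPowerSeries.coeff_zero_eq_constantCoeff_apply, MvPolynomial.coeff_coe] at h4
  exact h4

theorem ne_zero_of_formEquivPow {f g : MvPolynomial (Fin n) ℂ} {m : ℕ} (hm : 0 < m)
    (h : FormEquivPow f g m) (hf : f ≠ 0) : g ≠ 0 := by
  rintro rfl
  obtain ⟨e, u, h⟩ := h
  apply hf
  apply MvPolynomial.coe_injective (Fin n) ℂ
  rw [h]
  simp [hm.ne']

/-- The local theorem for germs formally equivalent to powers of non-degenerate polynomials, for all
formal Bernstein–Sato polynomials. -/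
theorem eval_eq_zero_of_equiv {f g : MvPolynomial (Fin n) ℂ} {m : ℕ} (hm : 0 < m)
    (h : FormEquivPow f g m) (hf : f ≠ 0) (h0 : coeff 0 f = 0)
    (hnd : ∀ w : Fin n → ℕ, (∀ j, 0 < w j) → IsNondeg (initialPart g w))
    (s₀ : ℚ) (hp : IsPole (Zmot0 f) s₀) (b : Polynomial ℂ)
    (hb : InDnForm f 1 (b.map (MvPowerSeries.C (σ := Fin n) (R := ℂ)))) :
    b.eval (s₀ : ℂ) = 0 := by
  have h1 := eval_eq_zero_of_form (ne_zero_of_formEquivPow hm h hf)
    (coeff_zero_eq_zero_of_formEquivPow hm h h0) hnd (m * s₀) (isPole_of_formEquivPow hm h hp) _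
    (form_of_formEquivPow hm h hb)
  have hm' : (m : ℂ) ≠ 0 := by exact_mod_cast hm.ne'
  rw [Polynomial.eval_comp] at h1
  simp only [Polynomial.eval_mul, Polynomial.eval_C, Polynomial.eval_X] at h1
  push_cast at h1
  rw [inv_mul_cancel_left₀ hm'] at h1
  exact h1

/-- **The strong monodromy conjecture, local version**, for germs that are formally equivalent to a
power of a polynomial which is non-degenerate on the compact faces of its Newton polyhedron. -/
theorem smc_local_equiv {f g : MvPolynomial (Fin n) ℂ} {m : ℕ} (hm : 0 < m)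
    (h : FormEquivPow f g m) (hf : f ≠ 0) (h0 : coeff 0 f = 0)
    (hnd : ∀ w : Fin n → ℕ, (∀ j, 0 < w j) → IsNondeg (initialPart g w))
    (s₀ : ℚ) (hp : IsPole (Zmot0 f) s₀) : IsLocalBernsteinSatoRoot f s₀ :=
  (roots_of_form fun b hb => eval_eq_zero_of_equiv hm h hf h0 hnd s₀ hp b hb).2

theorem translate_ne_zero {f : MvPolynomial (Fin n) ℂ} (hf : f ≠ 0) (p : Fin n → ℂ) :
    translate p f ≠ 0 := by
  intro h
  apply hf
  have h2 : translate (-p) (translate p f) = f := by
    unfold translate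
    rw [← AlgHom.comp_apply, comp_aeval]
    convert aeval_X_left_apply f using 2
    congr 1
    funext i
    simp
  rw [← h2, h]
  simp [translate]

theorem coeff_zero_translate {f : MvPolynomial (Fin n) ℂ} {p : Fin n → ℂ} (hp1 : eval p f = 0) :
    coeff 0 (translate p f) = 0 := by
  have : constantCoeff (translate p f) = eval p f := by
    unfold translate
    rw [aeval_def, hom_eval₂]
    simp [eval_eq', eval₂_eq']
  rw [← constantCoeff_eq, this, hp1]

/-- **The strong monodromy conjecture, global version**, for hypersurfaces with isolated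
singularities each of which is, in some formal coordinates, non-degenerate. -/
theorem smc_isolated {f : MvPolynomial (Fin n) ℂ} (hf : f ≠ 0) (h0 : coeff 0 f = 0)
    (hfin : {p : Fin n → ℂ | eval p f = 0 ∧ ∀ j, eval p (pderiv j f) = 0}.Finite)
    (hnd : ∀ p : Fin n → ℂ, eval p f = 0 → (∀ j, eval p (pderiv j f) = 0) →
      ∃ g : MvPolynomial (Fin n) ℂ, FormEquivPow (translate p f) g 1 ∧
        ∀ w : Fin n → ℕ, (∀ j, 0 < w j) → IsNondeg (initialPart g w))
    (s₀ : ℚ) (hp : IsPole (Zmot f) s₀) : IsBernsteinSatoRoot f s₀ := by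
  have h0' : (0 : Fin n →₀ ℕ) ∉ f.support := by rwa [notMem_support_iff]
  by_cases hs : s₀ = -1
  · subst hs
    exact (roots_of_form (f := f) (s₀ := -1) fun b hb => neg_one_root hf h0' b hb).1
  obtain ⟨p, ⟨hp1, hp2⟩, hp3⟩ := exists_pole_of_isolated hf hfin hs hp
  obtain ⟨g, hg, hgnd⟩ := hnd p hp1 hp2
  intro b hb
  exact eval_eq_zero_of_equiv one_pos hg (translate_ne_zero hf p) (coeff_zero_translate hp1) hgnd
    s₀ hp3 b (form_translate p hb)

end MPb07157
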