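import Pool.Agent.Lib.MP_b07157_agE.EA
import Pool.Agent.Lib.MP_b07157_ag.NewtFF1

/-!
# Formal equivalence and formal Bernstein–Sato polynomials
-/

noncomputable section

namespace MPb07157

open MvPolynomial

variable {n : ℕ}

/-- `InDnForm` for power series. -/
inductive InPs (F : MvPowerSeries (Fin n) ℂ) :
    ℕ → Polynomial (MvPowerSeries (Fin n) ℂ) → Prop
  | base : InPs F 0 1
  | add {k g h} : InPs F k g → InPs F k h → InPs F k (g + h)
  | mul {k g} (c : Polynomial (MvPowerSeries (Fin n) ℂ)) : InPs F k g → InPs F k (c * g)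
  | deriv {k g} (i : Fin n) : InPs F k g →
      InPs F (k + 1) (Polynomial.C F * derivC i g +
        (Polynomial.X + 1 - (k : Polynomial (MvPowerSeries (Fin n) ℂ))) *
          Polynomial.C (MvPowerSeries.pderiv ℂ i F) * g)
  | raise {k g} : InPs F k g → InPs F (k + 1) (Polynomial.C F * g)
  | lower {k g} : InPs F (k + 1) (Polynomial.C F * g) → InPs F k g

theorem InPs.of_eq {F : MvPowerSeries (Fin n) ℂ} {k l : ℕ}
    {g h : Polynomial (MvPowerSeries (Fin n) ℂ)} (hg : InPs F k g) (hk : k = l) (hh : g = h) :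
    InPs F l h := by
  subst hk hh
  exact hg

theorem InPs.zero {F : MvPowerSeries (Fin n) ℂ} {k : ℕ}
    {g : Polynomial (MvPowerSeries (Fin n) ℂ)} (hg : InPs F k g) : InPs F k 0 :=
  (hg.mul 0).of_eq rfl (zero_mul g)

theorem InPs.sum {ι : Type} {F : MvPowerSeries (Fin n) ℂ} {k : ℕ} (s : Finset ι)
    {g : ι → Polynomial (MvPowerSeries (Fin n) ℂ)} (h0 : InPs F k 0)
    (hg : ∀ i ∈ s, InPs F k (g i)) : InPs F k (∑ i ∈ s, g i) := by
  classical
  induction s using Finset.induction_on with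
  | empty => simpa using h0
  | insert a s ha ih =>
    rw [Finset.sum_insert ha]
    exact (hg a (Finset.mem_insert_self a s)).add
      (ih fun i hi => hg i (Finset.mem_insert_of_mem hi))

theorem InPs.raise_pow {F : MvPowerSeries (Fin n) ℂ} {k : ℕ}
    {g : Polynomial (MvPowerSeries (Fin n) ℂ)} (hg : InPs F k g) (j : ℕ) :
    InPs F (k + j) (Polynomial.C (F ^ j) * g) := by
  induction j with
  | zero => exact hg.of_eq rfl (by simp)
  | succ j ih => exact ih.raise.of_eq rfl (by rw [pow_succ', map_mul, mul_assoc])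

theorem InPs.lower_pow {F : MvPowerSeries (Fin n) ℂ} {k : ℕ}
    {g : Polynomial (MvPowerSeries (Fin n) ℂ)} (j : ℕ)
    (hg : InPs F (k + j) (Polynomial.C (F ^ j) * g)) : InPs F k g := by
  induction j with
  | zero => exact hg.of_eq rfl (by simp)
  | succ j ih =>
    exact ih (InPs.lower (hg.of_eq rfl (by rw [pow_succ', map_mul, mul_assoc])))

private theorem coe_pderiv' (i : Fin n) (f : MvPolynomial (Fin n) ℂ) :
    ((pderiv i f : MvPolynomial (Fin n) ℂ) : MvPowerSeries (Fin n) ℂ) =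
      MvPowerSeries.pderiv ℂ i (f : MvPowerSeries (Fin n) ℂ) := by
  ext m
  rw [MvPolynomial.coeff_coe, MvPowerSeries.coeff_pderiv, MvPolynomial.coeff_coe,
    MvPolynomial.coeff_pderiv]

theorem inPs_of_form {f : MvPolynomial (Fin n) ℂ} {k : ℕ}
    {g : Polynomial (MvPowerSeries (Fin n) ℂ)} (h : InDnForm f k g) :
    InPs (f : MvPowerSeries (Fin n) ℂ) k g := by
  induction h with
  | base => exact InPs.base
  | add _ _ ih1 ih2 => exact ih1.add ih2
  | mul c _ ih => exact ih.mul c
  | deriv i _ ih => exact (ih.deriv i).of_eq rfl (by rw [coe_pderiv']; rfl)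
  | raise _ ih => exact ih.raise
  | lower _ ih => exact ih.lower

theorem form_of_inPs {f : MvPolynomial (Fin n) ℂ} {k : ℕ}
    {g : Polynomial (MvPowerSeries (Fin n) ℂ)} (h : InPs (f : MvPowerSeries (Fin n) ℂ) k g) :
    InDnForm f k g := by
  induction h with
  | base => exact InDnForm.base
  | add _ _ ih1 ih2 => exact ih1.add ih2
  | mul c _ ih => exact ih.mul c
  | deriv i _ ih =>
    have := ih.deriv i
    rw [coe_pderiv'] at this
    exact this
  | raise _ ih => exact ih.raise
  | lower _ ih => exact ih.lower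

/-- Coefficientwise derivatives commute with scaling of the variable by a constant. -/
private theorem derivC_comp (i : Fin n) (c : ℂ) (g : Polynomial (MvPowerSeries (Fin n) ℂ)) :
    derivC i (g.comp (Polynomial.C (MvPowerSeries.C c) * Polynomial.X)) =
      (derivC i g).comp (Polynomial.C (MvPowerSeries.C c) * Polynomial.X) := by
  refine Polynomial.ext fun j => ?_
  have h1 : ∀ (p : Polynomial (MvPowerSeries (Fin n) ℂ)) (j : ℕ),
      (p.comp (Polynomial.C (MvPowerSeries.C c) * Polynomial.X)).coeff j =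
        p.coeff j * MvPowerSeries.C c ^ j := fun p j => Polynomial.comp_C_mul_X_coeff
  rw [coeff_derivC, h1, h1, coeff_derivC, Derivation.leibniz]
  have h2 : MvPowerSeries.pderiv ℂ i (MvPowerSeries.C c ^ j : MvPowerSeries (Fin n) ℂ) = 0 := by
    rw [← map_pow]
    exact Derivation.map_algebraMap (MvPowerSeries.pderiv ℂ i) (c ^ j)
  rw [h2, smul_zero, zero_add, smul_eq_mul, mul_comm]

/-- Units and powers.  With `t = m s`, `h f^{s+1-k}` becomes
`u^{s+1} (u^{-k} G^{m-1} h(x, t/m)) G^{t+1-mk}`; by induction `u^{-k} G^{m-1} h(x, t/m)` is in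
`InPs G (m k)`. -/
theorem InPs.unit_pow {F G : MvPowerSeries (Fin n) ℂ} {m : ℕ} (hm : 0 < m)
    (u : (MvPowerSeries (Fin n) ℂ)ˣ) (hF : F = u * G ^ m) {k : ℕ}
    {h : Polynomial (MvPowerSeries (Fin n) ℂ)} (hh : InPs F k h) :
    InPs G (m * k) (Polynomial.C (((u⁻¹ : (MvPowerSeries (Fin n) ℂ)ˣ) : MvPowerSeries (Fin n) ℂ) ^ k *
      G ^ (m - 1)) *
      h.comp (Polynomial.C (MvPowerSeries.C ((m : ℂ)⁻¹)) * Polynomial.X)) := by
  set v : MvPowerSeries (Fin n) ℂ := ((u⁻¹ : (MvPowerSeries (Fin n) ℂ)ˣ) : MvPowerSeries (Fin n) ℂ)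
    with hv
  have huv : (u : MvPowerSeries (Fin n) ℂ) * v = 1 := Units.mul_inv u
  set q : Polynomial (MvPowerSeries (Fin n) ℂ) :=
    Polynomial.C (MvPowerSeries.C ((m : ℂ)⁻¹)) * Polynomial.X with hq
  have hmq : (m : Polynomial (MvPowerSeries (Fin n) ℂ)) * q = Polynomial.X := by
    have h1 : (m : Polynomial (MvPowerSeries (Fin n) ℂ)) =
        Polynomial.C (MvPowerSeries.C (m : ℂ)) := by simp
    rw [hq, h1, ← mul_assoc, ← map_mul, ← map_mul, mul_inv_cancel₀, map_one, map_one, one_mul]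
    exact_mod_cast hm.ne'
  induction hh with
  | base =>
    refine (InPs.base.mul (Polynomial.C (v ^ 0 * G ^ (m - 1)))).of_eq (by simp) (by simp)
  | add _ _ ih1 ih2 => exact (ih1.add ih2).of_eq rfl (by rw [Polynomial.add_comp, mul_add])
  | mul c _ ih => exact (ih.mul (c.comp q)).of_eq rfl (by rw [Polynomial.mul_comp]; ring)
  | @deriv k g i _ ih =>
    obtain ⟨m', rfl⟩ : ∃ m', m = m' + 1 := ⟨m - 1, by omega⟩
    simp only [Nat.add_sub_cancel] at ih ⊢
    set Q := Polynomial.C (v ^ k * G ^ m') * g.comp q with hQ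
    have h1 := (ih.deriv i).raise_pow m'
    have h2 := (ih.raise_pow (m' + 1)).mul
      ((q + 1) * Polynomial.C (v * MvPowerSeries.pderiv ℂ i (u : MvPowerSeries (Fin n) ℂ)))
    have h3 : (m' + 1) * k + 1 + m' = (m' + 1) * k + (m' + 1) := by ring
    refine ((h1.of_eq h3 rfl).add h2).of_eq (by ring) ?_
    -- the identity
    have hdQ : derivC i Q = Polynomial.C (MvPowerSeries.pderiv ℂ i (v ^ k * G ^ m')) * g.comp q +
        Polynomial.C (v ^ k * G ^ m') * (derivC i g).comp q := by
      rw [hQ, derivC_mul, derivC_C, hq, derivC_comp]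
    have hdF : MvPowerSeries.pderiv ℂ i F =
        MvPowerSeries.pderiv ℂ i (u : MvPowerSeries (Fin n) ℂ) * G ^ (m' + 1) +
          (u : MvPowerSeries (Fin n) ℂ) * (((m' + 1 : ℕ) : MvPowerSeries (Fin n) ℂ) * G ^ m' *
            MvPowerSeries.pderiv ℂ i G) := by
      rw [hF, Derivation.leibniz, Derivation.leibniz_pow, smul_eq_mul, smul_eq_mul, smul_eq_mul,
        Nat.add_sub_cancel, nsmul_eq_mul]
      ring
    have hdv : MvPowerSeries.pderiv ℂ i v =
        - (v ^ 2 * MvPowerSeries.pderiv ℂ i (u : MvPowerSeries (Fin n) ℂ)) := by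
      have h5 : MvPowerSeries.pderiv ℂ i ((u : MvPowerSeries (Fin n) ℂ) * v) = 0 := by
        rw [huv]; exact Derivation.map_one_eq_zero _
      rw [Derivation.leibniz, smul_eq_mul, smul_eq_mul] at h5
      have h6 : (u : MvPowerSeries (Fin n) ℂ) * MvPowerSeries.pderiv ℂ i v =
          - (v * MvPowerSeries.pderiv ℂ i (u : MvPowerSeries (Fin n) ℂ)) :=
        eq_neg_of_add_eq_zero_left h5
      calc MvPowerSeries.pderiv ℂ i v = (u * v) * MvPowerSeries.pderiv ℂ i v := by
            rw [huv, one_mul]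
        _ = v * ((u : MvPowerSeries (Fin n) ℂ) * MvPowerSeries.pderiv ℂ i v) := by ring
        _ = _ := by rw [h6]; ring
    have hdvG : MvPowerSeries.pderiv ℂ i (v ^ k * G ^ m') * G =
        -((k : MvPowerSeries (Fin n) ℂ) * v ^ (k + 1) *
          MvPowerSeries.pderiv ℂ i (u : MvPowerSeries (Fin n) ℂ) * G ^ (m' + 1)) +
        v ^ k * ((m' : MvPowerSeries (Fin n) ℂ) * G ^ m' * MvPowerSeries.pderiv ℂ i G) := by
      rw [Derivation.leibniz, Derivation.leibniz_pow, Derivation.leibniz_pow, smul_eq_mul,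
        smul_eq_mul, smul_eq_mul, smul_eq_mul, nsmul_eq_mul, nsmul_eq_mul, hdv]
      rcases k with _ | k
      · rcases m' with _ | m'
        · simp
        · simp only [Nat.add_sub_cancel]
          push_cast
          ring
      · rcases m' with _ | m'
        · simp only [Nat.add_sub_cancel]
          push_cast
          ring
        · simp only [Nat.add_sub_cancel]
          push_cast
          ring
    rw [Polynomial.add_comp, Polynomial.mul_comp, Polynomial.mul_comp, Polynomial.mul_comp,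
      Polynomial.sub_comp, Polynomial.add_comp, Polynomial.X_comp, Polynomial.C_comp,
      Polynomial.C_comp, Polynomial.one_comp, Polynomial.natCast_comp]
    have huvC : Polynomial.C (u : MvPowerSeries (Fin n) ℂ) * Polynomial.C v = 1 := by
      rw [← map_mul, huv, map_one]
    have hdvGC := congrArg (fun a : MvPowerSeries (Fin n) ℂ => Polynomial.C a) hdvG
    simp only [map_mul, map_add, map_neg, map_pow, map_natCast] at hdvGC
    rw [hdQ, hQ, hdF, hF]
    simp only [map_mul, map_add, map_pow, map_natCast]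
    clear_value q
    push_cast at hmq ⊢
    set D := (derivC i g).comp q
    set g' := g.comp q
    set U := Polynomial.C (u : MvPowerSeries (Fin n) ℂ)
    set V := Polynomial.C v
    set Gc := Polynomial.C G
    set dG := Polynomial.C (MvPowerSeries.pderiv ℂ i G)
    set dU := Polynomial.C (MvPowerSeries.pderiv ℂ i (u : MvPowerSeries (Fin n) ℂ))
    linear_combination (Gc ^ m' * g') * hdvGC -
      (V ^ k * Gc ^ m' * (Gc ^ (m' + 1) * D +
        (q + 1 - (k : Polynomial (MvPowerSeries (Fin n) ℂ))) *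
          ((m' : Polynomial (MvPowerSeries (Fin n) ℂ)) + 1) * Gc ^ m' * dG * g')) * huvC -
      (dG * V ^ k * Gc ^ m' * Gc ^ m' * g') * hmq
  | @raise k g _ ih =>
    obtain ⟨m', rfl⟩ : ∃ m', m = m' + 1 := ⟨m - 1, by omega⟩
    refine (ih.raise_pow (m' + 1)).of_eq (by ring) ?_
    rw [Polynomial.mul_comp, Polynomial.C_comp, hF, ← mul_assoc, ← mul_assoc, ← map_mul,
      ← map_mul]
    congr 2
    rw [Nat.add_sub_cancel, pow_succ v]
    linear_combination (- v ^ k * G ^ (m' + 1) * G ^ m') * huv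
  | @lower k g _ ih =>
    obtain ⟨m', rfl⟩ : ∃ m', m = m' + 1 := ⟨m - 1, by omega⟩
    refine InPs.lower_pow (m' + 1) (ih.of_eq (by ring) ?_)
    rw [Polynomial.mul_comp, Polynomial.C_comp, hF, ← mul_assoc, ← mul_assoc, ← map_mul,
      ← map_mul]
    congr 2
    rw [Nat.add_sub_cancel, pow_succ v]
    linear_combination (v ^ k * G ^ (m' + 1) * G ^ m') * huv

/-- Change of coordinates. -/
theorem InPs.equiv {F : MvPowerSeries (Fin n) ℂ}
    (e : MvPowerSeries (Fin n) ℂ ≃ₐ[ℂ] MvPowerSeries (Fin n) ℂ) {k : ℕ}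
    {h : Polynomial (MvPowerSeries (Fin n) ℂ)} (hh : InPs F k h) :
    InPs (e F) k (h.map (e : MvPowerSeries (Fin n) ℂ →+* MvPowerSeries (Fin n) ℂ)) := by
  have hchain : ∀ (i : Fin n) (a : MvPowerSeries (Fin n) ℂ),
      e (MvPowerSeries.pderiv ℂ i a) =
        ∑ j, e (MvPowerSeries.pderiv ℂ i (e.symm (MvPowerSeries.X j))) *
          MvPowerSeries.pderiv ℂ j (e a) := by
    intro i a
    have h1 := pderiv_equiv e.symm i (e a)
    rw [AlgEquiv.symm_apply_apply] at h1
    rw [h1, map_sum]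
    refine Finset.sum_congr rfl fun j _ => ?_
    rw [map_mul, AlgEquiv.apply_symm_apply]
  have hchainC : ∀ (i : Fin n) (g : Polynomial (MvPowerSeries (Fin n) ℂ)),
      (derivC i g).map (e : MvPowerSeries (Fin n) ℂ →+* MvPowerSeries (Fin n) ℂ) =
        ∑ j, Polynomial.C (e (MvPowerSeries.pderiv ℂ i (e.symm (MvPowerSeries.X j)))) *
          derivC j (g.map (e : MvPowerSeries (Fin n) ℂ →+* MvPowerSeries (Fin n) ℂ)) := by
    intro i g
    refine Polynomial.ext fun l => ?_
    rw [Polynomial.coeff_map, coeff_derivC, Polynomial.finsetSum_coeff]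
    refine (hchain i (g.coeff l)).trans (Finset.sum_congr rfl fun j _ => ?_)
    rw [Polynomial.coeff_C_mul, coeff_derivC, Polynomial.coeff_map]
    rfl
  induction hh with
  | base => exact InPs.base.of_eq rfl (by simp)
  | add _ _ ih1 ih2 => exact (ih1.add ih2).of_eq rfl (by rw [Polynomial.map_add])
  | mul c _ ih =>
    exact (ih.mul (c.map (e : MvPowerSeries (Fin n) ℂ →+* MvPowerSeries (Fin n) ℂ))).of_eq rfl
      (by rw [Polynomial.map_mul])
  | @deriv k g i _ ih =>
    refine (InPs.sum Finset.univ ((ih.deriv i).zero) fun j _ => (ih.deriv j).mul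
      (Polynomial.C (e (MvPowerSeries.pderiv ℂ i (e.symm (MvPowerSeries.X j)))))).of_eq rfl ?_
    rw [Polynomial.map_add, Polynomial.map_mul, Polynomial.map_mul, Polynomial.map_mul,
      Polynomial.map_sub, Polynomial.map_add, Polynomial.map_X, Polynomial.map_C,
      Polynomial.map_C, Polynomial.map_one, Polynomial.map_natCast, hchainC]
    have h1 : Polynomial.C ((e : MvPowerSeries (Fin n) ℂ →+* MvPowerSeries (Fin n) ℂ)
        (MvPowerSeries.pderiv ℂ i F)) =
          ∑ j, Polynomial.C (e (MvPowerSeries.pderiv ℂ i (e.symm (MvPowerSeries.X j)))) *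
            Polynomial.C (MvPowerSeries.pderiv ℂ j (e F)) := by
      have h2 : (e : MvPowerSeries (Fin n) ℂ →+* MvPowerSeries (Fin n) ℂ)
          (MvPowerSeries.pderiv ℂ i F) = _ := hchain i F
      rw [h2, map_sum]
      exact Finset.sum_congr rfl fun j _ => map_mul _ _ _
    rw [h1, Finset.mul_sum, Finset.mul_sum, Finset.sum_mul, ← Finset.sum_add_distrib]
    refine Finset.sum_congr rfl fun j _ => ?_
    simp only [RingHom.coe_coe]
    ring
  | raise _ ih =>
    exact ih.raise.of_eq rfl (by rw [Polynomial.map_mul, Polynomial.map_C]; rfl)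
  | lower _ ih =>
    exact (ih.of_eq rfl (by rw [Polynomial.map_mul, Polynomial.map_C]; rfl)).lower

theorem form_of_formEquivPow {f g : MvPolynomial (Fin n) ℂ} {m : ℕ} (hm : 0 < m)
    (h : FormEquivPow f g m) {b : Polynomial ℂ}
    (hb : InDnForm f 1 (b.map (MvPowerSeries.C (σ := Fin n) (R := ℂ)))) :
    InDnForm g 1 ((b.comp (Polynomial.C ((m : ℂ)⁻¹) * Polynomial.X)).map
      (MvPowerSeries.C (σ := Fin n) (R := ℂ))) := by
  obtain ⟨e, u, hfg⟩ := h
  have h1 := (inPs_of_form hb).unit_pow hm u hfg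
  -- the power series `e g`
  set G : MvPowerSeries (Fin n) ℂ := e (g : MvPowerSeries (Fin n) ℂ) with hG
  set v : MvPowerSeries (Fin n) ℂ := ((u⁻¹ : (MvPowerSeries (Fin n) ℂ)ˣ) : MvPowerSeries (Fin n) ℂ)
    with hv
  have huv : (u : MvPowerSeries (Fin n) ℂ) * v = 1 := Units.mul_inv u
  obtain ⟨m', rfl⟩ : ∃ m', m = m' + 1 := ⟨m - 1, by omega⟩
  have hcomp : (b.map (MvPowerSeries.C (σ := Fin n) (R := ℂ))).comp
      (Polynomial.C (MvPowerSeries.C (((m' + 1 : ℕ) : ℂ)⁻¹)) * Polynomial.X) =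
      (b.comp (Polynomial.C (((m' + 1 : ℕ) : ℂ)⁻¹) * Polynomial.X)).map
        (MvPowerSeries.C (σ := Fin n) (R := ℂ)) := by
    rw [Polynomial.map_comp, Polynomial.map_mul, Polynomial.map_C, Polynomial.map_X]
  rw [hcomp] at h1
  set B := b.comp (Polynomial.C (((m' + 1 : ℕ) : ℂ)⁻¹) * Polynomial.X)
  have h2 : InPs G 1 (B.map (MvPowerSeries.C (σ := Fin n) (R := ℂ))) := by
    refine InPs.lower_pow m' ?_
    refine (h1.mul (Polynomial.C (u : MvPowerSeries (Fin n) ℂ))).of_eq (by ring) ?_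
    rw [← mul_assoc, ← map_mul]
    congr 2
    rw [pow_one, Nat.add_sub_cancel, ← mul_assoc, huv, one_mul]
  have h3 := h2.equiv e.symm
  have h4 : e.symm G = (g : MvPowerSeries (Fin n) ℂ) := AlgEquiv.symm_apply_apply _ _
  rw [h4] at h3
  refine form_of_inPs (h3.of_eq rfl ?_)
  refine Polynomial.ext fun j => ?_
  rw [Polynomial.coeff_map, Polynomial.coeff_map]
  exact e.symm.commutes _

end MPb07157
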