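import Pool.Agent.Lib.MP_b07157_agE.EDefs

/-!
# Automorphisms of `ℂ[[x_1, …, x_n]]`: locality and the chain rule
-/

noncomputable section

namespace MPb07157

open MvPolynomial

variable {n : ℕ}

/-- An automorphism preserves constant coefficients: `h - c` is a unit for all but one `c`. -/
theorem constantCoeff_equiv (e : MvPowerSeries (Fin n) ℂ ≃ₐ[ℂ] MvPowerSeries (Fin n) ℂ)
    (h : MvPowerSeries (Fin n) ℂ) :
    MvPowerSeries.constantCoeff (e h) = MvPowerSeries.constantCoeff h := by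
  set c := MvPowerSeries.constantCoeff h with hc
  by_contra hne
  have halg : ∀ c : ℂ, algebraMap ℂ (MvPowerSeries (Fin n) ℂ) c = MvPowerSeries.C c := fun _ => rfl
  have h1 : IsUnit (e (h - MvPowerSeries.C c)) := by
    rw [MvPowerSeries.isUnit_iff_constantCoeff, map_sub, ← halg, e.commutes, halg, map_sub,
      MvPowerSeries.constantCoeff_C, isUnit_iff_ne_zero]
    exact sub_ne_zero.2 hne
  have h2 : IsUnit (h - MvPowerSeries.C c) := by
    have := h1.map (e.symm : MvPowerSeries (Fin n) ℂ →+* MvPowerSeries (Fin n) ℂ)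
    simpa using this
  rw [MvPowerSeries.isUnit_iff_constantCoeff, map_sub, MvPowerSeries.constantCoeff_C, ← hc,
    sub_self] at h2
  exact not_isUnit_zero h2

/-- The order is at least `N`. -/
def LowZ (N : ℕ) (h : MvPowerSeries (Fin n) ℂ) : Prop :=
  ∀ v : Fin n →₀ ℕ, ∑ i, v i < N → MvPowerSeries.coeff v h = 0

theorem LowZ.add {N : ℕ} {a b : MvPowerSeries (Fin n) ℂ} (ha : LowZ N a) (hb : LowZ N b) :
    LowZ N (a + b) := fun v hv => by rw [map_add, ha v hv, hb v hv, add_zero]

theorem LowZ.sub {N : ℕ} {a b : MvPowerSeries (Fin n) ℂ} (ha : LowZ N a) (hb : LowZ N b) :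
    LowZ N (a - b) := fun v hv => by rw [map_sub, ha v hv, hb v hv, sub_zero]

theorem LowZ.sum {ι : Type} {N : ℕ} (s : Finset ι) {a : ι → MvPowerSeries (Fin n) ℂ}
    (ha : ∀ i ∈ s, LowZ N (a i)) : LowZ N (∑ i ∈ s, a i) := fun v hv => by
  rw [map_sum]
  exact Finset.sum_eq_zero fun i hi => ha i hi v hv

theorem LowZ.mul {N M : ℕ} {a b : MvPowerSeries (Fin n) ℂ} (ha : LowZ N a) (hb : LowZ M b) :
    LowZ (N + M) (a * b) := by
  classical
  intro v hv
  rw [MvPowerSeries.coeff_mul]
  refine Finset.sum_eq_zero fun p hp => ?_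
  have h1 : p.1 + p.2 = v := Finset.HasAntidiagonal.mem_antidiagonal.1 hp
  have h2 : ∑ i, v i = ∑ i, p.1 i + ∑ i, p.2 i := by
    rw [← h1, ← Finset.sum_add_distrib]
    rfl
  rcases lt_or_ge (∑ i, p.1 i) N with h3 | h3
  · rw [ha _ h3, zero_mul]
  · rw [hb p.2 (by omega), mul_zero]

theorem LowZ.zero (a : MvPowerSeries (Fin n) ℂ) : LowZ 0 a := fun v hv =>
  absurd hv (Nat.not_lt_zero _)

theorem LowZ.mul_left {N : ℕ} {b : MvPowerSeries (Fin n) ℂ} (a : MvPowerSeries (Fin n) ℂ)
    (hb : LowZ N b) : LowZ N (a * b) := by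
  have := (LowZ.zero a).mul hb
  rwa [zero_add] at this

theorem LowZ.mul_right {N : ℕ} {a : MvPowerSeries (Fin n) ℂ} (ha : LowZ N a)
    (b : MvPowerSeries (Fin n) ℂ) : LowZ N (a * b) := by
  rw [mul_comm]
  exact ha.mul_left b

theorem LowZ.mono {N M : ℕ} (h : N ≤ M) {a : MvPowerSeries (Fin n) ℂ} (ha : LowZ M a) :
    LowZ N a := fun v hv => ha v (hv.trans_le h)

theorem LowZ.pderiv {N : ℕ} {a : MvPowerSeries (Fin n) ℂ} (ha : LowZ (N + 1) a) (i : Fin n) :
    LowZ N (MvPowerSeries.pderiv ℂ i a) := by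
  intro v hv
  rw [MvPowerSeries.coeff_pderiv, ha, zero_mul]
  have : ∑ j, (v + Finsupp.single i 1 : Fin n →₀ ℕ) j = ∑ j, v j + 1 := by
    simp only [Finsupp.add_apply, Finset.sum_add_distrib]
    congr 1
    rw [Finset.sum_eq_single i]
    · simp
    · intro b _ hb
      exact Finsupp.single_eq_of_ne hb
    · intro h
      exact absurd (Finset.mem_univ i) h
  omega

/-- A series without constant coefficient is in the ideal generated by the variables. -/
theorem LowZ.decomp {N : ℕ} {h : MvPowerSeries (Fin n) ℂ} (hh : LowZ (N + 1) h) :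
    ∃ g : Fin n → MvPowerSeries (Fin n) ℂ, (∀ i, LowZ N (g i)) ∧
      h = ∑ i, MvPowerSeries.X i * g i := by
  classical
  -- the least index in the support
  set good : Fin n → (Fin n →₀ ℕ) → Prop := fun i v => v i ≠ 0 ∧ ∀ j < i, v j = 0 with hgood
  set g : Fin n → MvPowerSeries (Fin n) ℂ := fun i u =>
    if good i (u + Finsupp.single i 1) then MvPowerSeries.coeff (u + Finsupp.single i 1) h else 0
    with hg
  have hgc : ∀ i u, MvPowerSeries.coeff u (g i) =
      if good i (u + Finsupp.single i 1) then MvPowerSeries.coeff (u + Finsupp.single i 1) h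
      else 0 := fun i u => rfl
  refine ⟨g, fun i u hu => ?_, ?_⟩
  · rw [hgc]
    split_ifs
    · refine hh _ ?_
      have : ∑ j, (u + Finsupp.single i 1 : Fin n →₀ ℕ) j = ∑ j, u j + 1 := by
        simp only [Finsupp.add_apply, Finset.sum_add_distrib]
        congr 1
        rw [Finset.sum_eq_single i]
        · simp
        · intro b _ hb
          exact Finsupp.single_eq_of_ne hb
        · intro h
          exact absurd (Finset.mem_univ i) h
      omega
    · rfl
  · ext v
    rw [map_sum]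
    have hX : ∀ i, MvPowerSeries.coeff v (MvPowerSeries.X i * g i) =
        if good i v then MvPowerSeries.coeff v h else 0 := by
      intro i
      have h1 : (MvPowerSeries.X i : MvPowerSeries (Fin n) ℂ) =
          MvPowerSeries.monomial (Finsupp.single i 1) 1 := rfl
      rw [h1, MvPowerSeries.coeff_monomial_mul]
      by_cases hv : Finsupp.single i 1 ≤ v
      · rw [if_pos hv, one_mul, hgc, tsub_add_cancel_of_le hv]
      · rw [if_neg hv, if_neg]
        rintro ⟨h2, -⟩
        apply hv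
        rw [Finsupp.single_le_iff]
        omega
    simp only [hX]
    by_cases hv : v = 0
    · subst hv
      rw [hh 0 (by simp), Finset.sum_eq_zero]
      intro i _
      rw [if_neg]
      rintro ⟨h2, -⟩
      exact h2 rfl
    · have hex : ∃ i : Fin n, v i ≠ 0 := by
        by_contra hcon
        push Not at hcon
        exact hv (Finsupp.ext hcon)
      obtain ⟨i, hi⟩ : ∃ i, good i v := by
        obtain ⟨i, hi, hmin⟩ := (Finset.univ.filter fun i : Fin n => v i ≠ 0).exists_minimal
          (by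
            obtain ⟨i, hi⟩ := hex
            exact ⟨i, Finset.mem_filter.2 ⟨Finset.mem_univ _, hi⟩⟩)
        refine ⟨i, (Finset.mem_filter.1 hi).2, fun j hj => ?_⟩
        by_contra h3
        exact absurd (hmin (Finset.mem_filter.2 ⟨Finset.mem_univ _, h3⟩) hj.le) (not_le.2 hj)
      rw [Finset.sum_eq_single i]
      · rw [if_pos hi]
      · intro j _ hj
        rw [if_neg]
        rintro ⟨h2, h3⟩
        rcases lt_or_gt_of_ne hj with h4 | h4
        · exact h2 (hi.2 j h4)
        · exact hi.1 (h3 i h4)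
      · intro h3
        exact absurd (Finset.mem_univ i) h3

theorem LowZ.equiv (e : MvPowerSeries (Fin n) ℂ ≃ₐ[ℂ] MvPowerSeries (Fin n) ℂ) {N : ℕ}
    {h : MvPowerSeries (Fin n) ℂ} (hh : LowZ N h) : LowZ N (e h) := by
  induction N generalizing h with
  | zero => exact LowZ.zero _
  | succ N ih =>
    obtain ⟨g, hg, rfl⟩ := hh.decomp
    rw [map_sum]
    refine LowZ.sum _ fun i _ => ?_
    rw [map_mul, add_comm N 1]
    refine LowZ.mul (fun v hv => ?_) (ih (hg i))
    have hv0 : v = 0 := by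
      ext j
      have h1 : v j ≤ ∑ i, v i :=
        Finset.single_le_sum (f := fun i => v i) (fun _ _ => Nat.zero_le _) (Finset.mem_univ j)
      simp only [Finsupp.coe_zero, Pi.zero_apply]
      omega
    rw [hv0, MvPowerSeries.coeff_zero_eq_constantCoeff_apply, constantCoeff_equiv,
      MvPowerSeries.constantCoeff_X]

theorem coeff_equiv_eq_zero (e : MvPowerSeries (Fin n) ℂ ≃ₐ[ℂ] MvPowerSeries (Fin n) ℂ) (N : ℕ)
    {h : MvPowerSeries (Fin n) ℂ}
    (hh : ∀ v : Fin n →₀ ℕ, ∑ i, v i ≤ N → MvPowerSeries.coeff v h = 0) :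
    ∀ v : Fin n →₀ ℕ, ∑ i, v i ≤ N → MvPowerSeries.coeff v (e h) = 0 := by
  intro v hv
  have h1 : LowZ (N + 1) h := fun v hv => hh v (by omega)
  exact h1.equiv e v (by omega)

/-- Every series is a polynomial up to order `N`. -/
theorem exists_poly_lowZ (N : ℕ) (h : MvPowerSeries (Fin n) ℂ) :
    ∃ p : MvPolynomial (Fin n) ℂ, LowZ N (h - (p : MvPowerSeries (Fin n) ℂ)) := by
  classical
  refine ⟨MvPowerSeries.trunc' ℂ (Finsupp.equivFunOnFinite.symm fun _ => N) h, fun v hv => ?_⟩
  rw [map_sub, MvPolynomial.coeff_coe, MvPowerSeries.coeff_trunc', if_pos, sub_self]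
  intro j
  have h1 : v j ≤ ∑ i, v i :=
    Finset.single_le_sum (f := fun i => v i) (fun _ _ => Nat.zero_le _) (Finset.mem_univ j)
  show v j ≤ N
  omega

/-- Chain rule: `∂_i (e h) = ∑_j ∂_i (e x_j) · e (∂_j h)`.  Proof: the difference is a derivation
`δ` along `e` which kills the polynomials, and `h` is a polynomial plus an element of the `k`-th
power of the maximal ideal, for all `k`. -/
theorem pderiv_equiv (e : MvPowerSeries (Fin n) ℂ ≃ₐ[ℂ] MvPowerSeries (Fin n) ℂ) (i : Fin n)
    (h : MvPowerSeries (Fin n) ℂ) :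
    MvPowerSeries.pderiv ℂ i (e h) =
      ∑ j, MvPowerSeries.pderiv ℂ i (e (MvPowerSeries.X j)) * e (MvPowerSeries.pderiv ℂ j h) := by
  have halg : ∀ c : ℂ, algebraMap ℂ (MvPowerSeries (Fin n) ℂ) c = MvPowerSeries.C c := fun _ => rfl
  set δ : MvPowerSeries (Fin n) ℂ → MvPowerSeries (Fin n) ℂ := fun h =>
    MvPowerSeries.pderiv ℂ i (e h) -
      ∑ j, MvPowerSeries.pderiv ℂ i (e (MvPowerSeries.X j)) * e (MvPowerSeries.pderiv ℂ j h)
    with hδ
  have hadd : ∀ a b, δ (a + b) = δ a + δ b := by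
    intro a b
    simp only [hδ, map_add, mul_add, Finset.sum_add_distrib]
    ring
  have hmul : ∀ a b, δ (a * b) = δ a * e b + e a * δ b := by
    intro a b
    simp only [hδ, map_mul, Derivation.leibniz, smul_eq_mul, map_add, mul_add,
      Finset.sum_add_distrib]
    rw [sub_mul, mul_sub, Finset.sum_mul, Finset.mul_sum]
    have e1 : ∑ j, MvPowerSeries.pderiv ℂ i (e (MvPowerSeries.X j)) *
        (e a * e (MvPowerSeries.pderiv ℂ j b)) =
        ∑ j, e a * (MvPowerSeries.pderiv ℂ i (e (MvPowerSeries.X j)) *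
          e (MvPowerSeries.pderiv ℂ j b)) := Finset.sum_congr rfl fun j _ => by ring
    have e2 : ∑ j, MvPowerSeries.pderiv ℂ i (e (MvPowerSeries.X j)) *
        (e b * e (MvPowerSeries.pderiv ℂ j a)) =
        ∑ j, MvPowerSeries.pderiv ℂ i (e (MvPowerSeries.X j)) *
          e (MvPowerSeries.pderiv ℂ j a) * e b := Finset.sum_congr rfl fun j _ => by ring
    rw [e1, e2]
    ring
  have hC : ∀ c : ℂ, δ (MvPowerSeries.C c) = 0 := by
    intro c
    simp only [hδ]
    rw [← halg, e.commutes, halg]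
    have h1 : ∀ j, MvPowerSeries.pderiv ℂ j (MvPowerSeries.C c : MvPowerSeries (Fin n) ℂ) = 0 := by
      intro j
      rw [← halg]
      exact Derivation.map_algebraMap _ _
    simp only [h1, map_zero, mul_zero, Finset.sum_const_zero, sub_zero]
  have hX : ∀ k, δ (MvPowerSeries.X k) = 0 := by
    intro k
    simp only [hδ]
    rw [Finset.sum_eq_single k]
    · have : MvPowerSeries.pderiv ℂ k (MvPowerSeries.X k : MvPowerSeries (Fin n) ℂ) = 1 := by
        rw [← MvPolynomial.coe_X, MvPowerSeries.pderiv_coe, pderiv_X_self, MvPolynomial.coe_one]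
      rw [this, map_one, mul_one, sub_self]
    · intro j _ hj
      have : MvPowerSeries.pderiv ℂ j (MvPowerSeries.X k : MvPowerSeries (Fin n) ℂ) = 0 := by
        rw [← MvPolynomial.coe_X, MvPowerSeries.pderiv_coe, pderiv_X_of_ne (Ne.symm hj),
          MvPolynomial.coe_zero]
      rw [this, map_zero, mul_zero]
    · intro h
      exact absurd (Finset.mem_univ k) h
  have hpoly : ∀ p : MvPolynomial (Fin n) ℂ, δ (p : MvPowerSeries (Fin n) ℂ) = 0 := by
    intro p
    induction p using MvPolynomial.induction_on with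
    | C a =>
      rw [MvPolynomial.coe_C]
      exact hC a
    | add a b ha hb => rw [MvPolynomial.coe_add, hadd, ha, hb, add_zero]
    | mul_X a j ha =>
      rw [MvPolynomial.coe_mul, MvPolynomial.coe_X, hmul, ha, hX, zero_mul, mul_zero, add_zero]
  have hlow : ∀ (N : ℕ) (a : MvPowerSeries (Fin n) ℂ), LowZ (N + 1) a → LowZ N (δ a) := by
    intro N a ha
    refine LowZ.sub ((ha.equiv e).pderiv i) (LowZ.sum _ fun j _ => ?_)
    exact LowZ.mul_left _ ((ha.pderiv j).equiv e)
  rw [← sub_eq_zero]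
  show δ h = 0
  ext v
  obtain ⟨p, hp⟩ := exists_poly_lowZ (∑ j, v j + 2) h
  have h1 : δ h = δ (h - (p : MvPowerSeries (Fin n) ℂ)) := by
    have h2 := hadd (h - (p : MvPowerSeries (Fin n) ℂ)) (p : MvPowerSeries (Fin n) ℂ)
    rw [sub_add_cancel, hpoly p, add_zero] at h2
    exact h2
  rw [h1, hlow _ _ hp v (by omega), map_zero]

/-- Polynomials without terms of degree `≤ N` vanish up to order `N` on the arcs at the origin. -/
theorem coeff_aeval_arc_eq_zero {N : ℕ} {D : MvPolynomial (Fin n) ℂ}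
    (hD : ∀ v : Fin n →₀ ℕ, ∑ i, v i ≤ N → coeff v D = 0)
    (γ : Fin n → PowerSeries ℂ) (hγ : ∀ i, PowerSeries.constantCoeff (γ i) = 0) (k : ℕ)
    (hk : k ≤ N) : PowerSeries.coeff k (aeval γ D : PowerSeries ℂ) = 0 := by
  classical
  rw [aeval_def, eval₂_eq, map_sum]
  refine Finset.sum_eq_zero fun v hv => ?_
  have h1 : N < ∑ i, v i := by
    by_contra hcon
    exact (mem_support_iff.1 hv) (hD v (not_lt.1 hcon))
  have h2 : ∀ i, PowerSeries.X ∣ γ i := fun i => PowerSeries.X_dvd_iff.2 (hγ i)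
  have h3 : (PowerSeries.X : PowerSeries ℂ) ^ (∑ i, v i) ∣ ∏ i ∈ v.support, γ i ^ v i := by
    have h4 : ∑ i, v i = ∑ i ∈ v.support, v i := by
      symm
      refine Finset.sum_subset (Finset.subset_univ _) fun i _ hi => ?_
      exact Finsupp.notMem_support_iff.1 hi
    rw [h4, ← Finset.prod_pow_eq_pow_sum]
    exact Finset.prod_dvd_prod_of_dvd _ _ fun i _ => pow_dvd_pow_of_dvd (h2 i) _
  have h5 : (PowerSeries.X : PowerSeries ℂ) ^ (∑ i, v i) ∣
      algebraMap ℂ (PowerSeries ℂ) (coeff v D) * ∏ i ∈ v.support, γ i ^ v i :=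
    h3.mul_left _
  exact PowerSeries.X_pow_dvd_iff.1 h5 k (by omega)

theorem coeff_aeval_arc_congr {N : ℕ} {A B : MvPolynomial (Fin n) ℂ}
    (h : ∀ v : Fin n →₀ ℕ, ∑ i, v i ≤ N → coeff v A = coeff v B)
    (γ : Fin n → PowerSeries ℂ) (hγ : ∀ i, PowerSeries.constantCoeff (γ i) = 0) :
    ∀ k ≤ N, PowerSeries.coeff k (aeval γ A : PowerSeries ℂ) =
      PowerSeries.coeff k (aeval γ B : PowerSeries ℂ) := by
  intro k hk
  have h1 := coeff_aeval_arc_eq_zero (D := A - B) (N := N) (fun v hv => by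
    rw [coeff_sub, h v hv, sub_self]) γ hγ k hk
  rw [map_sub, map_sub, sub_eq_zero] at h1
  exact h1

/-- Jets: for polynomials `q j` which agree with `e x_j` up to order `N`, `e g` and `g (q)` agree up
to order `N`, in the sense that they have the same values modulo `t ^ (N + 1)` on all arcs at the
origin.  Stated with an arbitrary polynomial `P` which agrees with `e g` up to order `N`. -/
theorem aeval_arc_equiv (e : MvPowerSeries (Fin n) ℂ ≃ₐ[ℂ] MvPowerSeries (Fin n) ℂ) (N : ℕ)
    (q : Fin n → MvPolynomial (Fin n) ℂ)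
    (hq : ∀ j, ∀ v : Fin n →₀ ℕ, ∑ i, v i ≤ N →
      coeff v (q j) = MvPowerSeries.coeff v (e (MvPowerSeries.X j)))
    (g P : MvPolynomial (Fin n) ℂ)
    (hP : ∀ v : Fin n →₀ ℕ, ∑ i, v i ≤ N →
      coeff v P = MvPowerSeries.coeff v (e (g : MvPowerSeries (Fin n) ℂ)))
    (γ : Fin n → PowerSeries ℂ) (hγ : ∀ i, PowerSeries.constantCoeff (γ i) = 0) :
    ∀ k ≤ N, PowerSeries.coeff k (aeval γ P : PowerSeries ℂ) =
      PowerSeries.coeff k (aeval (fun j => (aeval γ (q j) : PowerSeries ℂ)) g : PowerSeries ℂ) := by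
  have halg : ∀ c : ℂ, algebraMap ℂ (MvPowerSeries (Fin n) ℂ) c = MvPowerSeries.C c := fun _ => rfl
  have h1 : (aeval (fun j => (aeval γ (q j) : PowerSeries ℂ)) g : PowerSeries ℂ) =
      aeval γ (aeval q g : MvPolynomial (Fin n) ℂ) := by
    rw [← AlgHom.comp_apply, comp_aeval]
  rw [h1]
  have hlow : ∀ g : MvPolynomial (Fin n) ℂ, LowZ (N + 1)
      (((aeval q g : MvPolynomial (Fin n) ℂ) : MvPowerSeries (Fin n) ℂ) -
        e (g : MvPowerSeries (Fin n) ℂ)) := by
    intro g
    induction g using MvPolynomial.induction_on with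
    | C a =>
      rw [← MvPolynomial.algebraMap_eq, AlgHom.commutes, MvPolynomial.algebraMap_eq,
        MvPolynomial.coe_C, ← halg, e.commutes, sub_self]
      intro v _
      rw [map_zero]
    | add a b ha hb =>
      have := ha.add hb
      rw [map_add, MvPolynomial.coe_add, MvPolynomial.coe_add, map_add]
      rwa [show ((aeval q a : MvPolynomial (Fin n) ℂ) : MvPowerSeries (Fin n) ℂ) +
        ((aeval q b : MvPolynomial (Fin n) ℂ) : MvPowerSeries (Fin n) ℂ) -
        (e (a : MvPowerSeries (Fin n) ℂ) + e (b : MvPowerSeries (Fin n) ℂ)) =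
        (((aeval q a : MvPolynomial (Fin n) ℂ) : MvPowerSeries (Fin n) ℂ) -
        e (a : MvPowerSeries (Fin n) ℂ)) +
        (((aeval q b : MvPolynomial (Fin n) ℂ) : MvPowerSeries (Fin n) ℂ) -
        e (b : MvPowerSeries (Fin n) ℂ)) by ring]
    | mul_X a j ha =>
      rw [map_mul, aeval_X, MvPolynomial.coe_mul, MvPolynomial.coe_mul, map_mul,
        MvPolynomial.coe_X]
      rw [show ((aeval q a : MvPolynomial (Fin n) ℂ) : MvPowerSeries (Fin n) ℂ) *
        (q j : MvPowerSeries (Fin n) ℂ) -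
        e (a : MvPowerSeries (Fin n) ℂ) * e (MvPowerSeries.X j) =
        (((aeval q a : MvPolynomial (Fin n) ℂ) : MvPowerSeries (Fin n) ℂ) -
        e (a : MvPowerSeries (Fin n) ℂ)) * (q j : MvPowerSeries (Fin n) ℂ) +
        e (a : MvPowerSeries (Fin n) ℂ) *
          ((q j : MvPowerSeries (Fin n) ℂ) - e (MvPowerSeries.X j)) by ring]
      refine (ha.mul_right _).add (LowZ.mul_left _ fun v hv => ?_)
      rw [map_sub, MvPolynomial.coeff_coe, hq j v (by omega), sub_self]
  refine coeff_aeval_arc_congr (fun v hv => ?_) γ hγ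
  rw [hP v hv]
  have h2 := hlow g v (by omega)
  rw [map_sub, MvPolynomial.coeff_coe, sub_eq_zero] at h2
  exact h2.symm

end MPb07157
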