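import Pool.Agent.Lib.MP_b07157_ag.NewtLocal

/-!
# Isolated singularities: the arcs at the smooth points
-/

noncomputable section

namespace MPb07157

open MvPolynomial

variable {n : ℕ}

/-! ### The zero weight -/

theorem isMinWt_zero {f : MvPolynomial (Fin n) ℂ} (hf : f ≠ 0) :
    IsMinWt f (0 : Fin n → ℕ) 0 := by
  obtain ⟨v, hv⟩ := Finset.nonempty_iff_ne_empty.2 (fun h => hf (support_eq_empty.1 h))
  refine ⟨fun v _ => Nat.zero_le _, v, hv, ?_⟩
  simp [wt]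

theorem inForm_face_zero (f : MvPolynomial (Fin n) ℂ) :
    inForm f (face f (0 : Fin n → ℕ) 0) = f := by
  have h : face f (0 : Fin n → ℕ) 0 = f.support := by
    unfold face
    rw [Finset.filter_true_of_mem]
    intro v _
    simp [wt]
  rw [h]
  exact support_sum_monomial_coeff f

theorem Vn_zero {N : ℕ} (γ : Fin n × Fin N → ℂ) : Vn (0 : Fin n → ℕ) γ :=
  fun _ _ hk => absurd hk (Nat.not_lt_zero _)

theorem lead0_zero {m : ℕ} (γ : Fin n × Fin (m + 1) → ℂ) :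
    lead0 (0 : Fin n → ℕ) γ = fun i => γ (i, 0) := by
  funext i
  unfold lead0
  rw [dif_pos (by simp)]
  rfl

theorem coeff_zero_Fv {f : MvPolynomial (Fin n) ℂ} (hf : f ≠ 0) {m : ℕ}
    (γ : Fin n × Fin (m + 1) → ℂ) :
    PowerSeries.coeff 0 (Fv f γ) = eval (fun i => γ (i, 0)) f := by
  rw [coeff_Fv_eq (isMinWt_zero hf) (Vn_zero γ), lead0_zero, inForm_face_zero]

/-- Effect of a change of one coefficient. -/
theorem coeff_Fv_update_zero {f : MvPolynomial (Fin n) ℂ} (hf : f ≠ 0) {m : ℕ}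
    (γ : Fin n × Fin (m + 1) → ℂ) (j : Fin n) (r : Fin (m + 1)) (hr : r ≠ 0) (c : ℂ) :
    (∀ k < (r : ℕ), PowerSeries.coeff k (Fv f (Function.update γ (j, r) (γ (j, r) + c))) =
        PowerSeries.coeff k (Fv f γ)) ∧
    PowerSeries.coeff (r : ℕ) (Fv f (Function.update γ (j, r) (γ (j, r) + c))) =
        PowerSeries.coeff (r : ℕ) (Fv f γ) + c * eval (fun i => γ (i, 0)) (pderiv j f) := by
  have hr1 : 1 ≤ (r : ℕ) := Nat.one_le_iff_ne_zero.2 fun h => hr (Fin.ext h)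
  have hr2 : (0 : Fin n → ℕ) j + (r : ℕ) < m + 1 := by
    rw [Pi.zero_apply, zero_add]
    exact r.2
  have h1 := coeff_Fv_update (isMinWt_zero hf) (Vn_zero γ) j (r : ℕ) hr1 hr2 c
  have h2 : (⟨(0 : Fin n → ℕ) j + (r : ℕ), hr2⟩ : Fin (m + 1)) = r := by
    ext
    simp
  rw [h2, lead0_zero, inForm_face_zero] at h1
  simp only [zero_add] at h1
  exact h1

/-! ### Arcs at the points of a set -/

/-- The arcs whose base point is in `W`. -/
def AtW (W : Set (Fin n → ℂ)) (N : ℕ) : Set (Fin n × Fin (N + 1) → ℂ) :=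
  {γ | (fun i => γ (i, 0)) ∈ W}

theorem isConstr_AtW {W : Set (Fin n → ℂ)} (hW : IsConstr W) (N : ℕ) : IsConstr (AtW W N) :=
  hW.reindex (fun i => ((i, 0) : Fin n × Fin (N + 1)))

theorem cls_AtW {W : Set (Fin n → ℂ)} (hW : IsConstr W) (N : ℕ) :
    cls (AtW W N) = cls W * L ^ (n * N) := by
  classical
  have h := cls_cell (fun i => ((i, 0) : Fin n × Fin (N + 1)))
    (fun i j hij => congrArg Prod.fst hij) W hW ∅ (fun _ => Finset.notMem_empty _) (n * N)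
    (by simp; ring)
  rw [← h]
  congr 1
  ext γ
  simp [AtW]

/-- The arcs at `W` along which `f` vanishes to order `> k`. -/
def BW (f : MvPolynomial (Fin n) ℂ) (W : Set (Fin n → ℂ)) (N k : ℕ) :
    Set (Fin n × Fin (N + 1) → ℂ) :=
  {γ | γ ∈ AtW W N ∧ ∀ i ∈ Finset.Icc 1 k, PowerSeries.coeff i (Fv f γ) = 0}

theorem isConstr_BW (f : MvPolynomial (Fin n) ℂ) {W : Set (Fin n → ℂ)} (hW : IsConstr W)
    (N k : ℕ) : IsConstr (BW f W N k) :=
  isConstr_setOf_and (isConstr_AtW hW N) (isConstr_forall_mem _ _ fun _ _ => isConstr_coeff f _ _)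

theorem hensel_BW {f : MvPolynomial (Fin n) ℂ} (hf : f ≠ 0) {W : Set (Fin n → ℂ)}
    (hW : IsConstr W) (j : Fin n) (hj : ∀ p ∈ W, eval p (pderiv j f) ≠ 0) {N k : ℕ}
    (hk : k < N) :
    cls (BW f W N (k + 1)) * L = cls (BW f W N k) ∧
    cls {γ | γ ∈ BW f W N k ∧ PowerSeries.coeff (k + 1) (Fv f γ) ≠ 0} =
      cls (BW f W N (k + 1)) * (L - 1) := by
  have hB : {x | x ∈ BW f W N k ∧ PowerSeries.coeff (k + 1) (Fv f x) = 0} =
      BW f W N (k + 1) := by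
    ext γ
    simp only [BW, Set.mem_ofPred_eq, Finset.mem_Icc]
    constructor
    · rintro ⟨⟨h1, h2⟩, h3⟩
      refine ⟨h1, fun i hi => ?_⟩
      rcases Nat.lt_or_ge i (k + 1) with h4 | h4
      · exact h2 i ⟨hi.1, by omega⟩
      · rw [show i = k + 1 by omega]; exact h3
    · rintro ⟨h1, h2⟩
      exact ⟨⟨h1, fun i hi => h2 i ⟨hi.1, by omega⟩⟩, h2 (k + 1) ⟨by omega, le_rfl⟩⟩
  set r : Fin (N + 1) := ⟨k + 1, by omega⟩ with hr
  have hr0 : r ≠ 0 := by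
    intro h
    have := congrArg Fin.val h
    simp [hr] at this
  have hup : ∀ γ ∈ BW f W N k, ∀ c : ℂ,
      Function.update γ (j, r) (γ (j, r) + c) ∈ BW f W N k := by
    rintro γ ⟨h1, h3⟩ c
    have h4 := coeff_Fv_update_zero hf γ j r hr0 c
    refine ⟨?_, fun i hi => ?_⟩
    · have : (fun i => Function.update γ (j, r) (γ (j, r) + c) (i, 0)) = fun i => γ (i, 0) := by
        funext i
        rw [Function.update_of_ne]
        intro h
        exact hr0 (congrArg Prod.snd h).symm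
      show (fun i => Function.update γ (j, r) (γ (j, r) + c) (i, 0)) ∈ W
      rw [this]
      exact h1
    · rw [h4.1 i (by have := (Finset.mem_Icc.1 hi).2; simp only [hr]; omega)]
      exact h3 i hi
  have key := hensel_step (BW f W N k) (isConstr_BW f hW N k)
    (fun γ => PowerSeries.coeff (k + 1) (Fv f γ)) (exists_coeff_poly f (k + 1))
    (j, r) hup
    (fun γ => eval (fun i => γ (i, 0)) (pderiv j f))
    (fun γ hγ => hj _ hγ.1)
    (fun γ hγ c => (coeff_Fv_update_zero hf γ j r hr0 c).2)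
  rw [hB] at key
  exact key

theorem cls_BW {f : MvPolynomial (Fin n) ℂ} (hf : f ≠ 0) {W : Set (Fin n → ℂ)}
    (hW : IsConstr W) (j : Fin n) (hj : ∀ p ∈ W, eval p (pderiv j f) ≠ 0) {N : ℕ} (k : ℕ)
    (hk : k ≤ N) :
    cls (BW f W N k) * L ^ k = cls W * L ^ (n * N) := by
  induction k with
  | zero =>
    rw [pow_zero, mul_one, ← cls_AtW hW N]
    congr 1
    ext γ
    simp [BW]
  | succ k ih =>
    rw [pow_succ', ← mul_assoc, (hensel_BW hf hW j hj hk).1, ih (by omega)]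

theorem arcs_AtW {f : MvPolynomial (Fin n) ℂ} (hf : f ≠ 0) {W : Set (Fin n → ℂ)}
    (h0 : ∀ p ∈ W, eval p f = 0) (m : ℕ) :
    arcs f (m + 1 + 1) (m + 1) ∩ AtW W (m + 1) =
      {γ | γ ∈ BW f W (m + 1) m ∧ PowerSeries.coeff (m + 1) (Fv f γ) ≠ 0} := by
  ext γ
  rw [Set.mem_inter_iff, mem_arcs_iff]
  simp only [BW, Set.mem_ofPred_eq, Finset.mem_Icc]
  constructor
  · rintro ⟨⟨h1, h2⟩, h3⟩
    exact ⟨⟨h3, fun i hi => h2 i (by omega)⟩, h1⟩
  · rintro ⟨⟨h1, h2⟩, h3⟩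
    refine ⟨⟨h3, fun i hi => ?_⟩, h1⟩
    rcases Nat.eq_zero_or_pos i with h4 | h4
    · rw [h4, coeff_zero_Fv hf]
      exact h0 _ h1
    · exact h2 i ⟨h4, by omega⟩

attribute [local irreducible] K0.instCommRing

theorem cls_arcs_AtW {f : MvPolynomial (Fin n) ℂ} (hf : f ≠ 0) {W : Set (Fin n → ℂ)}
    (hW : IsConstr W) (h0 : ∀ p ∈ W, eval p f = 0) (j : Fin n)
    (hj : ∀ p ∈ W, eval p (pderiv j f) ≠ 0) (m : ℕ) :
    cls (arcs f (m + 1 + 1) (m + 1) ∩ AtW W (m + 1)) * L ^ (m + 1) =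
      cls W * L ^ (n * (m + 1)) * (L - 1) := by
  rw [arcs_AtW hf h0, (hensel_BW hf hW j hj (Nat.lt_succ_self m)).2, mul_right_comm,
    cls_BW hf hW j hj (m + 1) le_rfl]

/-- The motivic measure of the arcs at smooth points. -/
theorem clsM_arcs_AtW {f : MvPolynomial (Fin n) ℂ} (hf : f ≠ 0) {W : Set (Fin n → ℂ)}
    (hW : IsConstr W) (h0 : ∀ p ∈ W, eval p f = 0) (j : Fin n)
    (hj : ∀ p ∈ W, eval p (pderiv j f) ≠ 0) (m : ℕ) :
    ↑((LU ^ (n * (m + 1 + 1)))⁻¹) * clsM (arcs f (m + 1 + 1) (m + 1) ∩ AtW W (m + 1)) =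
      (↑((LU ^ n)⁻¹) * clsM W * ((LU : Mot) - 1)) * (↑(LU⁻¹) : Mot) ^ (m + 1) := by
  have h1 := congrArg (algebraMap K0 Mot) (cls_arcs_AtW hf hW h0 j hj m)
  rw [map_mul, map_mul, map_mul, map_pow, map_pow, map_sub, map_one, ← LU_val] at h1
  have h2 : clsM (arcs f (m + 1 + 1) (m + 1) ∩ AtW W (m + 1)) =
      clsM W * (LU : Mot) ^ (n * (m + 1)) * ((LU : Mot) - 1) * (↑(LU⁻¹) : Mot) ^ (m + 1) := by
    unfold clsM
    rw [← h1, mul_assoc, ← mul_pow, Units.mul_inv, one_pow, mul_one]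
  rw [h2]
  have h3 : (↑((LU ^ (n * (m + 1 + 1)))⁻¹) : Mot) * (LU : Mot) ^ (n * (m + 1)) =
      ↑((LU ^ n)⁻¹) := by
    rw [← Units.val_pow_eq_pow_val, ← Units.val_mul]
    congr 1
    rw [mul_add n (m + 1) 1, mul_one, pow_add, mul_inv, mul_comm ((LU ^ (n * (m + 1)))⁻¹),
      mul_assoc, inv_mul_cancel, mul_one]
  calc _ = (↑((LU ^ (n * (m + 1 + 1)))⁻¹) * (LU : Mot) ^ (n * (m + 1))) *
        (clsM W * ((LU : Mot) - 1) * (↑(LU⁻¹) : Mot) ^ (m + 1)) := by ring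
    _ = _ := by rw [h3]; ring

end MPb07157
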