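import Pool.Agent.Lib.MP_b07157_agE.EDefs

/-!
# Translations
-/

noncomputable section

namespace MPb07157

open MvPolynomial

variable {n : ℕ}

/-- Translation of polynomials with coefficients in `ℂ[s]`. -/
def translateS (p : Fin n → ℂ) :
    MvPolynomial (Fin n) (Polynomial ℂ) →ₐ[Polynomial ℂ] MvPolynomial (Fin n) (Polynomial ℂ) :=
  aeval (fun i => X i + C (Polynomial.C (p i)))

theorem translateS_liftS (p : Fin n → ℂ) (f : MvPolynomial (Fin n) ℂ) :
    translateS p (liftS f) = liftS (translate p f) := by
  unfold translateS liftS translate
  induction f using MvPolynomial.induction_on with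
  | C a => simp
  | add a b ha hb => simp only [map_add, ha, hb]
  | mul_X a i ha =>
    rw [map_mul, map_mul, map_mul, map_mul, ha]
    simp

theorem pderiv_translateS (p : Fin n → ℂ) (i : Fin n) (g : MvPolynomial (Fin n) (Polynomial ℂ)) :
    pderiv i (translateS p g) = translateS p (pderiv i g) := by
  induction g using MvPolynomial.induction_on with
  | C a =>
    have : translateS p (C a) = C a := by simp [translateS]
    rw [this, pderiv_C, map_zero]
  | add a b ha hb => simp only [map_add, ha, hb]
  | mul_X a j ha =>
    have h1 : translateS p (X j) = X j + C (Polynomial.C (p j)) := by simp [translateS]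
    rw [map_mul, Derivation.leibniz, Derivation.leibniz, ha, h1, map_add, map_add, pderiv_C,
      add_zero, smul_eq_mul, smul_eq_mul, smul_eq_mul, smul_eq_mul, map_mul, map_mul, h1]
    congr 2
    by_cases hij : i = j
    · subst hij
      simp
    · rw [pderiv_X_of_ne (Ne.symm hij)]
      simp

theorem pderiv_translate (p : Fin n → ℂ) (i : Fin n) (g : MvPolynomial (Fin n) ℂ) :
    pderiv i (translate p g) = translate p (pderiv i g) := by
  unfold translate
  induction g using MvPolynomial.induction_on with
  | C a => simp
  | add a b ha hb => simp only [map_add, ha, hb]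
  | mul_X a j ha =>
    rw [map_mul, Derivation.leibniz, Derivation.leibniz, ha, aeval_X, map_add, map_add, pderiv_C,
      add_zero, smul_eq_mul, smul_eq_mul, smul_eq_mul, smul_eq_mul, map_mul, map_mul, aeval_X]
    congr 2
    by_cases hij : i = j
    · subst hij
      simp
    · rw [pderiv_X_of_ne (Ne.symm hij)]
      simp

theorem InDn.translate {f : MvPolynomial (Fin n) ℂ} (p : Fin n → ℂ) {k : ℕ}
    {g : MvPolynomial (Fin n) (Polynomial ℂ)} (h : InDn f k g) :
    InDn (MPb07157.translate p f) k (translateS p g) := by
  induction h with
  | base => rw [map_one]; exact InDn.base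
  | add _ _ ih1 ih2 => rw [map_add]; exact ih1.add ih2
  | mul c _ ih => rw [map_mul]; exact InDn.mul _ ih
  | @deriv k g i _ ih =>
    have := InDn.deriv i ih
    rw [map_add, map_mul, map_mul, map_mul, translateS_liftS, translateS_liftS,
      ← pderiv_translateS, ← pderiv_translate]
    have h2 : translateS p (C (Polynomial.X + 1 - (k : Polynomial ℂ))) =
        C (Polynomial.X + 1 - (k : Polynomial ℂ)) := by simp [translateS]
    rw [h2]
    exact this
  | raise _ ih => rw [map_mul, translateS_liftS]; exact InDn.raise ih
  | lower _ ih =>
    rw [map_mul, translateS_liftS] at ih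
    exact InDn.lower ih

/-- Global Bernstein–Sato polynomials are local Bernstein–Sato polynomials at `p`. -/
theorem form_translate {f : MvPolynomial (Fin n) ℂ} (p : Fin n → ℂ) {b : Polynomial ℂ}
    (hb : IsBernsteinSato f b) :
    InDnForm (translate p f) 1 (b.map (MvPowerSeries.C (σ := Fin n) (R := ℂ))) := by
  have h1 := InDn.translate p hb
  have h2 : translateS p (C b) = C b := by simp [translateS]
  rw [h2] at h1
  have h3 := InDn.toForm h1
  rwa [toForm_C] at h3

end MPb07157
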